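import Mathlib

/-!
Finitely generated cones in a finite dimensional inner product space: conical Carathéodory,
closedness, the nearest point, and the few extreme elements lemma.
-/

namespace Kirch553

open scoped RealInnerProductSpace
open Finset

variable {E : Type*} [NormedAddCommGroup E] [InnerProductSpace ℝ E] [FiniteDimensional ℝ E]
variable {ι : Type*} [DecidableEq ι] (v : ι → E)

/-- The cone generated by `v i`, `i ∈ R`. -/
def cone (R : Finset ι) : Set E :=
  {x | ∃ c : ι → ℝ, (∀ i ∈ R, 0 ≤ c i) ∧ ∑ i ∈ R, c i • v i = x}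

omit [FiniteDimensional ℝ E] in
lemma cone_mono {R S : Finset ι} (h : R ⊆ S) : cone v R ⊆ cone v S := by
  rintro x ⟨c, hc, rfl⟩
  refine ⟨fun i => if i ∈ R then c i else 0, fun i _ => ?_, ?_⟩
  · by_cases hi : i ∈ R
    · simp [hi, hc i hi]
    · simp [hi]
  · rw [← Finset.sum_subset h]
    · exact Finset.sum_congr rfl fun i hi => by simp [hi]
    · intro i _ hi
      simp [hi]

omit [InnerProductSpace ℝ E] [FiniteDimensional ℝ E] [DecidableEq ι] in
lemma zero_mem_cone [InnerProductSpace ℝ E] (R : Finset ι) : (0 : E) ∈ cone v R :=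
  ⟨fun _ => 0, fun _ _ => le_rfl, by simp⟩

omit [FiniteDimensional ℝ E] [DecidableEq ι] in
lemma add_mem_cone {R : Finset ι} {x y : E} (hx : x ∈ cone v R) (hy : y ∈ cone v R) :
    x + y ∈ cone v R := by
  obtain ⟨c, hc, rfl⟩ := hx
  obtain ⟨d, hd, rfl⟩ := hy
  refine ⟨fun i => c i + d i, fun i hi => add_nonneg (hc i hi) (hd i hi), ?_⟩
  rw [← Finset.sum_add_distrib]
  exact Finset.sum_congr rfl fun i _ => by rw [add_smul]

omit [FiniteDimensional ℝ E] [DecidableEq ι] in
lemma smul_mem_cone {R : Finset ι} {x : E} (hx : x ∈ cone v R) {t : ℝ} (ht : 0 ≤ t) :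
    t • x ∈ cone v R := by
  obtain ⟨c, hc, rfl⟩ := hx
  refine ⟨fun i => t * c i, fun i hi => mul_nonneg ht (hc i hi), ?_⟩
  rw [Finset.smul_sum]
  exact Finset.sum_congr rfl fun i _ => by rw [mul_smul]

omit [FiniteDimensional ℝ E] in
lemma gen_mem_cone {R : Finset ι} {i : ι} (hi : i ∈ R) : v i ∈ cone v R := by
  refine ⟨fun j => if j = i then 1 else 0, fun j _ => by dsimp only; split_ifs <;> norm_num, ?_⟩
  simp [hi]

omit [FiniteDimensional ℝ E] [DecidableEq ι] in
lemma convex_cone (R : Finset ι) : Convex ℝ (cone v R) := by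
  intro x hx y hy a b ha hb _
  exact add_mem_cone v (smul_mem_cone v hx ha) (smul_mem_cone v hy hb)

omit [FiniteDimensional ℝ E] in
/-- Conical Carathéodory. -/
lemma caratheodory (R : Finset ι) {x : E} (hx : x ∈ cone v R) :
    ∃ S ⊆ R, LinearIndepOn ℝ v (S : Set ι) ∧ x ∈ cone v S := by
  induction hn : R.card using Nat.strong_induction_on generalizing R with
  | _ n ih =>
    by_cases hli : LinearIndepOn ℝ v (R : Set ι)
    · exact ⟨R, subset_rfl, hli, hx⟩
    · obtain ⟨c, hc, hcx⟩ := hx
      rw [linearIndepOn_finset_iff] at hli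
      push Not at hli
      obtain ⟨f, hf0, j, hj, hfj⟩ := hli
      -- a relation with a positive coefficient
      obtain ⟨g, hg0, k, hk, hgk⟩ : ∃ g : ι → ℝ, ∑ i ∈ R, g i • v i = 0 ∧ ∃ k ∈ R, 0 < g k := by
        rcases lt_or_gt_of_ne hfj with h | h
        · refine ⟨fun i => - f i, ?_, j, hj, by simpa using h⟩
          simp only [neg_smul, Finset.sum_neg_distrib, hf0, neg_zero]
        · exact ⟨f, hf0, j, hj, h⟩
      obtain ⟨m, hm, hmin⟩ := Finset.exists_min_image (R.filter fun i => 0 < g i)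
        (fun i => c i / g i) ⟨k, by simp [hk, hgk]⟩
      rw [Finset.mem_filter] at hm
      obtain ⟨hmR, hgm⟩ := hm
      set t := c m / g m with ht
      have ht0 : 0 ≤ t := div_nonneg (hc m hmR) hgm.le
      have hcm : c m - t * g m = 0 := by
        rw [ht]; field_simp; ring
      have hnn : ∀ i ∈ R, 0 ≤ c i - t * g i := by
        intro i hi
        by_cases hgi : 0 < g i
        · have := hmin i (by simp [hi, hgi])
          rw [le_div_iff₀ hgi] at this
          linarith
        · push Not at hgi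
          nlinarith [hc i hi, mul_nonneg ht0 (neg_nonneg.mpr hgi)]
      have hx' : x ∈ cone v (R.erase m) := by
        refine ⟨fun i => c i - t * g i, fun i hi => hnn i (Finset.mem_of_mem_erase hi), ?_⟩
        have h1 : ∑ i ∈ R, (c i - t * g i) • v i = x := by
          simp only [sub_smul, Finset.sum_sub_distrib, mul_smul, ← Finset.smul_sum, hg0, hcx,
            smul_zero, sub_zero]
        rw [← h1, ← Finset.add_sum_erase R _ hmR]
        simp [hcm]
      obtain ⟨S, hS, hli', hxS⟩ := ih (R.erase m).card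
        (by rw [← hn]; exact Finset.card_erase_lt_of_mem hmR) (R.erase m) hx' rfl
      exact ⟨S, hS.trans (Finset.erase_subset _ _), hli', hxS⟩

lemma isClosed_cone_of_indep {S : Finset ι} (hS : LinearIndepOn ℝ v (S : Set ι)) :
    IsClosed (cone v S) := by
  let L : (S → ℝ) →ₗ[ℝ] E := Fintype.linearCombination ℝ (fun i : S => v i)
  have hL : LinearMap.ker L = ⊥ := by
    rw [LinearMap.ker_eq_bot]
    have : LinearIndependent ℝ (fun i : S => v i) := hS
    exact linearIndependent_iff_injective_fintypeLinearCombination.mp this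
  have hcl := LinearMap.isClosedEmbedding_of_injective hL
  have himg : cone v S = L '' {c : S → ℝ | ∀ i, 0 ≤ c i} := by
    ext x
    constructor
    · rintro ⟨c, hc, rfl⟩
      refine ⟨fun i => c i, fun i => hc i i.2, ?_⟩
      simp only [L, Fintype.linearCombination_apply]
      exact Finset.sum_coe_sort S (fun i => c i • v i)
    · rintro ⟨c, hc, rfl⟩
      refine ⟨fun i => if h : i ∈ S then c ⟨i, h⟩ else 0, fun i hi => by simp [hi, hc _], ?_⟩
      simp only [L, Fintype.linearCombination_apply]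
      rw [← Finset.sum_coe_sort S]
      exact Finset.sum_congr rfl fun i _ => by simp
  rw [himg]
  apply hcl.isClosedMap
  have : {c : S → ℝ | ∀ i, 0 ≤ c i} = ⋂ i, {c : S → ℝ | 0 ≤ c i} := by
    ext; simp
  rw [this]
  exact isClosed_iInter fun i => isClosed_le continuous_const (continuous_apply i)

lemma isClosed_cone (R : Finset ι) : IsClosed (cone v R) := by
  classical
  have : cone v R = ⋃ S ∈ {S : Finset ι | S ⊆ R ∧ LinearIndepOn ℝ v (S : Set ι)}, cone v S := by
    ext x
    simp only [Set.mem_iUnion, exists_prop, Set.mem_ofPred_eq]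
    constructor
    · intro hx
      obtain ⟨S, hS, hli, hxS⟩ := caratheodory v R hx
      exact ⟨S, ⟨hS, hli⟩, hxS⟩
    · rintro ⟨S, ⟨hS, -⟩, hxS⟩
      exact cone_mono v hS hxS
  rw [this]
  refine Set.Finite.isClosed_biUnion ?_ ?_
  · exact (Finset.finite_toSet R.powerset).subset fun S hS => by
      simpa using hS.1
  · intro S hS
    exact isClosed_cone_of_indep v hS.2

/-- `w` is the vector from `-x` to the nearest point of the cone. -/
structure IsW (R : Finset ι) (x w : E) : Prop where
  mem : w - x ∈ cone v R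
  nonneg : ∀ i ∈ R, 0 ≤ ⟪w, v i⟫
  orth : ⟪w, w - x⟫ = 0

lemma exists_isW (R : Finset ι) (x : E) : ∃ w, IsW v R x w := by
  have hne : (cone v R).Nonempty := ⟨0, zero_mem_cone v R⟩
  obtain ⟨q, hq, hmin⟩ := exists_norm_eq_iInf_of_complete_convex hne
    (isClosed_cone v R).isComplete (convex_cone v R) (-x)
  rw [norm_eq_iInf_iff_real_inner_le_zero (convex_cone v R) hq] at hmin
  refine ⟨q + x, by simpa using hq, ?_, ?_⟩
  · intro i hi
    have := hmin (q + v i) (add_mem_cone v hq (gen_mem_cone v hi))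
    rw [add_sub_cancel_left] at this
    have h2 : ⟪-x - q, v i⟫ = - ⟪q + x, v i⟫ := by
      rw [← inner_neg_left]; congr 1; abel
    linarith
  · have h1 := hmin 0 (zero_mem_cone v R)
    have h2 := hmin ((2 : ℝ) • q) (smul_mem_cone v hq (by norm_num))
    have e1 : ⟪-x - q, (0 : E) - q⟫ = ⟪q + x, q⟫ := by
      rw [zero_sub, inner_neg_right, ← inner_neg_left]; congr 1; abel
    have e2 : ⟪-x - q, (2 : ℝ) • q - q⟫ = - ⟪q + x, q⟫ := by
      have : (2 : ℝ) • q - q = q := by rw [two_smul]; abel
      rw [this, ← inner_neg_left]; congr 1; abel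
    rw [add_sub_cancel_right]
    linarith

omit [FiniteDimensional ℝ E] [DecidableEq ι] in
lemma IsW.inner_cone_nonneg {R : Finset ι} {x w : E} (h : IsW v R x w) {y : E}
    (hy : y ∈ cone v R) : 0 ≤ ⟪w, y⟫ := by
  obtain ⟨c, hc, rfl⟩ := hy
  rw [inner_sum]
  exact Finset.sum_nonneg fun i hi => by
    rw [inner_smul_right]; exact mul_nonneg (hc i hi) (h.nonneg i hi)

omit [FiniteDimensional ℝ E] [DecidableEq ι] in
lemma IsW.unique {R : Finset ι} {x w w' : E} (h : IsW v R x w) (h' : IsW v R x w') : w = w' := by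
  have h1 : 0 ≤ ⟪w, w' - x⟫ := h.inner_cone_nonneg v h'.mem
  have h2 : 0 ≤ ⟪w', w - x⟫ := h'.inner_cone_nonneg v h.mem
  have h3 := h.orth
  have h4 := h'.orth
  have : ⟪w - w', w - w'⟫ ≤ 0 := by
    have e : ⟪w - w', w - w'⟫ = ⟪w, w - x⟫ - ⟪w, w' - x⟫ - ⟪w', w - x⟫ + ⟪w', w' - x⟫ := by
      simp only [inner_sub_left, inner_sub_right]; ring
    rw [e]; linarith
  rw [real_inner_self_eq_norm_sq] at this
  have h0 : ‖w - w'‖ = 0 := by
    have := sq_nonneg ‖w - w'‖
    exact pow_eq_zero_iff (two_ne_zero) |>.mp (le_antisymm (by assumption) this)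
  exact sub_eq_zero.mp (norm_eq_zero.mp h0)

/-- The chosen vector. -/
noncomputable def W (R : Finset ι) (x : E) : E := (exists_isW v R x).choose

lemma W_spec (R : Finset ι) (x : E) : IsW v R x (W v R x) := (exists_isW v R x).choose_spec

lemma W_ne_zero {R : Finset ι} {x : E} (h : -x ∉ cone v R) : W v R x ≠ 0 := by
  intro h0
  have := (W_spec v R x).mem
  rw [h0, zero_sub] at this
  exact h this

lemma inner_W_self {R : Finset ι} {x : E} (h : -x ∉ cone v R) : 0 < ⟪W v R x, x⟫ := by
  have h1 := (W_spec v R x).orth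
  have h2 : 0 < ⟪W v R x, W v R x⟫ := by
    have := W_ne_zero v h
    exact real_inner_self_pos.mpr this
  rw [inner_sub_right] at h1
  linarith

/-- Few extreme elements. -/
lemma exists_basis (Q : Finset ι) (x : E) : ∃ B ⊆ Q, B.card ≤ Module.finrank ℝ E ∧
    ∀ u ∈ Q, u ∉ B → 0 ≤ ⟪W v (Q.erase u) x, v u⟫ := by
  obtain ⟨B, hB, hli, hmem⟩ := caratheodory v Q (W_spec v Q x).mem
  refine ⟨B, hB, ?_, ?_⟩
  · have h1 : LinearIndependent ℝ (fun i : (B : Set ι) => v i) := hli
    have := h1.fintype_card_le_finrank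
    simpa using this
  · intro u hu huB
    have hsub : B ⊆ Q.erase u := fun b hb => Finset.mem_erase.mpr
      ⟨fun h => huB (h ▸ hb), hB hb⟩
    have hW : IsW v (Q.erase u) x (W v Q x) :=
      ⟨cone_mono v hsub hmem, fun i hi => (W_spec v Q x).nonneg i (Finset.mem_of_mem_erase hi),
        (W_spec v Q x).orth⟩
    have := (W_spec v (Q.erase u) x).unique v hW
    rw [this]
    exact (W_spec v Q x).nonneg u hu

end Kirch553
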