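import Pool.Agent.Kirch553.Cone

/-!
The sampling argument: double counting of pairs (sample, extra point).
-/

namespace Kirch553

open scoped RealInnerProductSpace
open Finset

variable {E : Type*} [NormedAddCommGroup E] [InnerProductSpace ℝ E] [FiniteDimensional ℝ E]
variable {ι : Type*} [DecidableEq ι] (v : ι → E) (P : Finset ι)

open Classical in
/-- Points violating the chosen vector of the pair `(R, a)`. -/
noncomputable def viol (a : ι) (R : Finset ι) : Finset ι :=
  (P \ insert a R).filter fun u => ⟪W v R (v a), v u⟫ < 0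

/-- Pairs count: for a fixed `a` the violators over all `m`-samples of `P \ {a}`. -/
lemma sum_viol_le (a : ι) (ha : a ∈ P) (m : ℕ) :
    ∑ R ∈ (P.erase a).powersetCard m, (viol v P a R).card ≤
      Module.finrank ℝ E * (P.card - 1).choose (m + 1) := by
  classical
  choose B hBQ hBcard hB using fun Q : Finset ι => exists_basis v Q (v a)
  have hcard : ((P.erase a).powersetCard (m + 1)).card = (P.card - 1).choose (m + 1) := by
    rw [card_powersetCard, card_erase_of_mem ha]
  have h1 : ∑ R ∈ (P.erase a).powersetCard m, (viol v P a R).card =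
      (((P.erase a).powersetCard m).sigma fun R => viol v P a R).card := by
    rw [card_sigma]
  have h2 : (((P.erase a).powersetCard (m + 1)).sigma fun Q => B Q).card ≤
      Module.finrank ℝ E * (P.card - 1).choose (m + 1) := by
    rw [card_sigma, ← hcard, mul_comm, ← smul_eq_mul, ← Finset.sum_const]
    exact Finset.sum_le_sum fun Q _ => hBcard Q
  rw [h1]
  refine le_trans ?_ h2
  refine Finset.card_le_card_of_injOn (fun p => ⟨insert p.2 p.1, p.2⟩) ?_ ?_
  · rintro ⟨R, u⟩ hp
    simp only [coe_sigma, Set.mem_sigma_iff, mem_coe, mem_powersetCard, viol, mem_filter,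
      mem_sdiff, mem_insert, not_or] at hp ⊢
    obtain ⟨⟨hR, hRc⟩, ⟨huP, hua, huR⟩, hneg⟩ := hp
    refine ⟨⟨?_, ?_⟩, ?_⟩
    · intro x hx
      rw [mem_insert] at hx
      rcases hx with rfl | hx
      · exact mem_erase.mpr ⟨hua, huP⟩
      · exact hR hx
    · rw [card_insert_of_notMem huR, hRc]
    · by_contra hcon
      have := hB (insert u R) u (mem_insert_self _ _) hcon
      rw [erase_insert huR] at this
      linarith
  · rintro ⟨R, u⟩ hp ⟨R', u'⟩ hp' heq
    simp only [coe_sigma, Set.mem_sigma_iff, mem_coe, viol, mem_filter,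
      mem_sdiff, mem_insert, not_or] at hp hp'
    simp only [Sigma.mk.injEq, heq_eq_eq] at heq
    obtain ⟨hI, rfl⟩ := heq
    have : R = R' := by
      rw [← erase_insert hp.2.1.2.2, ← erase_insert hp'.2.1.2.2, hI]
    subst this
    rfl

/-- The `T ⊆ P` with `k` elements whose vectors have the origin in their convex hull. -/
def IsBad (T : Finset ι) : Prop := (0 : E) ∈ convexHull ℝ (v '' (T : Set ι))

omit [FiniteDimensional ℝ E] in
lemma isBad_of_neg_mem {S : Finset ι} {a : ι} (h : - v a ∈ cone v S) : IsBad v (insert a S) := by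
  obtain ⟨c, hc, hsum⟩ := h
  by_cases haS : a ∈ S
  · -- put the weight `c a + 1` on `a`
    set d : ι → ℝ := fun i => if i = a then c i + 1 else c i with hd
    have hd0 : ∀ i ∈ S, 0 ≤ d i := by
      intro i hi
      simp only [hd]
      split_ifs
      · linarith [hc i hi]
      · exact hc i hi
    have hds : ∑ i ∈ S, d i • v i = 0 := by
      have : ∀ i ∈ S, d i • v i = c i • v i + (if i = a then v a else 0) := by
        intro i _
        simp only [hd]
        split_ifs with h
        · subst h; rw [add_smul, one_smul]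
        · simp
      rw [Finset.sum_congr rfl this, Finset.sum_add_distrib, hsum]
      simp [haS]
    have hpos : 0 < ∑ i ∈ S, d i := by
      refine Finset.sum_pos' hd0 ⟨a, haS, ?_⟩
      simp only [hd, if_true]
      linarith [hc a haS]
    have := Finset.centerMass_mem_convexHull S (w := d) (z := v) (s := v '' (S : Set ι)) hd0 hpos
      (fun i hi => Set.mem_image_of_mem v hi)
    rw [Finset.centerMass, hds, smul_zero] at this
    rw [IsBad, Finset.insert_eq_of_mem haS]
    exact this
  · set d : ι → ℝ := fun i => if i = a then 1 else c i with hd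
    have hdc : ∀ i ∈ S, d i = c i := by
      intro i hi
      have : i ≠ a := fun h => haS (h ▸ hi)
      simp [hd, this]
    have hd0 : ∀ i ∈ insert a S, 0 ≤ d i := by
      intro i hi
      rw [mem_insert] at hi
      rcases hi with rfl | hi
      · simp [hd]
      · rw [hdc i hi]; exact hc i hi
    have hds : ∑ i ∈ insert a S, d i • v i = 0 := by
      rw [Finset.sum_insert haS, Finset.sum_congr rfl fun i hi => by rw [hdc i hi], hsum]
      simp [hd]
    have hpos : 0 < ∑ i ∈ insert a S, d i := by
      refine Finset.sum_pos' hd0 ⟨a, mem_insert_self _ _, ?_⟩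
      simp [hd]
    have := Finset.centerMass_mem_convexHull (insert a S) (w := d) (z := v)
      (s := v '' ((insert a S : Finset ι) : Set ι)) hd0 hpos
      (fun i hi => Set.mem_image_of_mem v hi)
    rw [Finset.centerMass, hds, smul_zero] at this
    exact this

omit [FiniteDimensional ℝ E] [DecidableEq ι] in
lemma IsBad.mono {S T : Finset ι} (h : IsBad v S) (hST : S ⊆ T) : IsBad v T :=
  convexHull_mono (Set.image_mono (by exact_mod_cast hST)) h

/-- A pair `(R, a)` with `-v a` in the cone of `R` contains a bad `(D+1)`-set through `a`. -/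
lemma exists_bad_of_neg_mem {R : Finset ι} {a : ι}
    (hR : Module.finrank ℝ E ≤ R.card) (h : - v a ∈ cone v R) :
    ∃ S ⊆ R, S.card = Module.finrank ℝ E ∧ IsBad v (insert a S) := by
  obtain ⟨B, hB, hli, hmem⟩ := caratheodory v R h
  have hBc : B.card ≤ Module.finrank ℝ E := by
    have h1 : LinearIndependent ℝ (fun i : (B : Set ι) => v i) := hli
    simpa using h1.fintype_card_le_finrank
  obtain ⟨S, hBS, hSR, hSc⟩ := Finset.exists_subsuperset_card_eq hB hBc hR
  exact ⟨S, hSR, hSc, (isBad_of_neg_mem v hmem).mono v (insert_subset_insert _ hBS)⟩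

open Classical in
/-- Number of pairs `(a, R)` with `-v a ∈ cone R`. -/
lemma card_bad_pairs_le {m : ℕ} (hm : Module.finrank ℝ E ≤ m) :
    ((P.sigma fun a => ((P.erase a).powersetCard m).filter fun R => - v a ∈ cone v R)).card ≤
      ((P.powersetCard (Module.finrank ℝ E + 1)).filter fun T => IsBad v T).card *
        ((Module.finrank ℝ E + 1) *
          (P.card - (Module.finrank ℝ E + 1)).choose (m - Module.finrank ℝ E)) := by
  set D := Module.finrank ℝ E with hD
  -- choose S for each pair
  have key : ∀ p : Sigma fun _ : ι => Finset ι, p ∈ (P.sigma fun a =>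
      ((P.erase a).powersetCard m).filter fun R => - v a ∈ cone v R) →
      ∃ S ⊆ p.2, S.card = D ∧ IsBad v (insert p.1 S) := by
    rintro ⟨a, R⟩ hp
    simp only [mem_sigma, mem_filter, mem_powersetCard] at hp
    obtain ⟨haP, ⟨hR, hRc⟩, hneg⟩ := hp
    exact exists_bad_of_neg_mem v (hm.trans (le_of_eq hRc.symm)) hneg
  choose! S hSR hSc hSbad using key
  set BAD := (P.powersetCard (D + 1)).filter fun T => IsBad v T with hBAD
  -- target: triples (T, a ∈ T, U ⊆ P \ T with |U| = m - D)
  have htarget : (BAD.sigma fun T => T ×ˢ (P \ T).powersetCard (m - D)).card =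
      BAD.card * ((D + 1) * (P.card - (D + 1)).choose (m - D)) := by
    rw [card_sigma, ← smul_eq_mul (a := BAD.card), ← Finset.sum_const]
    refine Finset.sum_congr rfl fun T hT => ?_
    simp only [hBAD, mem_filter, mem_powersetCard] at hT
    rw [card_product, card_powersetCard, card_sdiff_of_subset hT.1.1, hT.1.2]
  rw [← htarget]
  refine Finset.card_le_card_of_injOn
    (fun p => ⟨insert p.1 (S p), (p.1, p.2 \ S p)⟩) ?_ ?_
  · rintro ⟨a, R⟩ hp
    have hp' := hp
    simp only [coe_sigma, Set.mem_sigma_iff, mem_coe, mem_filter, mem_powersetCard] at hp'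
    obtain ⟨haP, ⟨hR, hRc⟩, hneg⟩ := hp'
    have h1 := hSR ⟨a, R⟩ (mem_coe.mp hp)
    have h2 := hSc ⟨a, R⟩ (mem_coe.mp hp)
    have h3 := hSbad ⟨a, R⟩ (mem_coe.mp hp)
    simp only at h1 h2 h3
    have haR : a ∉ R := fun h => (mem_erase.mp (hR h)).1 rfl
    have haS : a ∉ S ⟨a, R⟩ := fun h => haR (h1 h)
    simp only [coe_sigma, Set.mem_sigma_iff, mem_coe, hBAD, mem_filter, mem_powersetCard,
      mem_product]
    refine ⟨⟨⟨?_, ?_⟩, h3⟩, mem_insert_self _ _, ?_, ?_⟩
    · intro x hx
      rw [mem_insert] at hx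
      rcases hx with rfl | hx
      · exact haP
      · exact mem_of_mem_erase (hR (h1 hx))
    · rw [card_insert_of_notMem haS, h2]
    · intro x hx
      rw [mem_sdiff] at hx
      rw [mem_sdiff, mem_insert, not_or]
      exact ⟨mem_of_mem_erase (hR hx.1), fun h => haR (h ▸ hx.1), hx.2⟩
    · rw [card_sdiff_of_subset h1, h2, hRc]
  · rintro ⟨a, R⟩ hp ⟨a', R'⟩ hp' heq
    have h1 := hSR ⟨a, R⟩ (mem_coe.mp hp)
    have h1' := hSR ⟨a', R'⟩ (mem_coe.mp hp')
    simp only [Sigma.mk.injEq] at heq
    obtain ⟨hT, hrest⟩ := heq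
    have hrest' : (a, R \ S ⟨a, R⟩) = (a', R' \ S ⟨a', R'⟩) := eq_of_heq hrest
    rw [Prod.mk.injEq] at hrest'
    obtain ⟨rfl, hU⟩ := hrest'
    have haR : a ∉ R := by
      simp only [coe_sigma, Set.mem_sigma_iff, mem_coe, mem_filter, mem_powersetCard] at hp
      exact fun h => (mem_erase.mp (hp.2.1.1 h)).1 rfl
    have haR' : a ∉ R' := by
      simp only [coe_sigma, Set.mem_sigma_iff, mem_coe, mem_filter, mem_powersetCard] at hp'
      exact fun h => (mem_erase.mp (hp'.2.1.1 h)).1 rfl
    simp only at h1 h1' hT hU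
    have hSS : S ⟨a, R⟩ = S ⟨a, R'⟩ := by
      rw [← erase_insert (fun h => haR (h1 h)), ← erase_insert (fun h => haR' (h1' h)), hT]
    have : R = R' := by
      rw [← sdiff_union_of_subset h1, ← sdiff_union_of_subset h1', hU, hSS]
    subst this
    rfl

end Kirch553
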