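import Pool.Agent.Kirch553.Upper

/-!
Positive-fraction Kirchberger theorem: the order `ε^(1/(d+1))` is sharp.
-/

namespace Kirch553

open Finset MeasureTheory

section genpos

variable {d : ℕ}

lemma affineSpan_ne_top (T : Finset (EuclideanSpace ℝ (Fin d))) (hT : T.card ≤ d) :
    affineSpan ℝ (T : Set (EuclideanSpace ℝ (Fin d))) ≠ ⊤ := by
  classical
  intro h
  rcases Finset.eq_empty_or_nonempty T with rfl | hne
  · simp at h
  · obtain ⟨n, hn⟩ : ∃ n, T.card = n + 1 := ⟨T.card - 1, by have := hne.card_pos; omega⟩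
    have h1 := finrank_vectorSpan_image_finset_le ℝ (fun x : EuclideanSpace ℝ (Fin d) => x) T hn
    have h2 : (T.image fun x : EuclideanSpace ℝ (Fin d) => x) = T := by simp
    rw [h2] at h1
    have h3 : vectorSpan ℝ (T : Set (EuclideanSpace ℝ (Fin d))) = ⊤ := by
      rw [← direction_affineSpan, h, AffineSubspace.direction_top]
    rw [h3, finrank_top, finrank_euclideanSpace_fin] at h1
    omega

lemma exists_avoid (S : Finset (EuclideanSpace ℝ (Fin d)))
    {U : Set (EuclideanSpace ℝ (Fin d))} (hU : IsOpen U) (hne : U.Nonempty) :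
    ∃ y ∈ U, ∀ T ⊆ S, T.card ≤ d → y ∉ affineSpan ℝ (T : Set (EuclideanSpace ℝ (Fin d))) := by
  classical
  by_contra hcon
  push Not at hcon
  have hsub : U ⊆ ⋃ T ∈ (S.powerset.filter fun T => T.card ≤ d),
      (affineSpan ℝ (T : Set (EuclideanSpace ℝ (Fin d))) : Set (EuclideanSpace ℝ (Fin d))) := by
    intro y hy
    obtain ⟨T, hTS, hTc, hyT⟩ := hcon y hy
    simp only [Set.mem_iUnion]
    exact ⟨T, by simp [hTS, hTc], hyT⟩
  have hzero : volume (⋃ T ∈ (S.powerset.filter fun T => T.card ≤ d),
      (affineSpan ℝ (T : Set (EuclideanSpace ℝ (Fin d))) : Set (EuclideanSpace ℝ (Fin d)))) = 0 := by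
    refine le_antisymm ((measure_biUnion_finset_le _ _).trans (le_of_eq ?_)) zero_le
    apply Finset.sum_eq_zero
    intro T hT
    simp only [Finset.mem_filter, Finset.mem_powerset] at hT
    exact Measure.addHaar_affineSubspace volume _ (affineSpan_ne_top T hT.2)
  have hpos := hU.measure_pos volume hne
  have := measure_mono (μ := volume) hsub
  rw [hzero] at this
  exact absurd hpos (by simpa using this)

lemma genPos_insert {S : Finset (EuclideanSpace ℝ (Fin d))} [DecidableEq (EuclideanSpace ℝ (Fin d))]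
    (hS : GenPos S)
    {y : EuclideanSpace ℝ (Fin d)}
    (hy : ∀ T ⊆ S, T.card ≤ d → y ∉ affineSpan ℝ (T : Set (EuclideanSpace ℝ (Fin d)))) :
    GenPos (insert y S) := by
  intro T hT hTc
  by_cases hyT : y ∈ T
  · have hTe : T.erase y ⊆ S := by
      intro x hx
      have := hT (Finset.mem_of_mem_erase hx)
      exact (Finset.mem_insert.mp this).resolve_left (Finset.ne_of_mem_erase hx)
    have hc : (T.erase y).card ≤ d := by
      rw [Finset.card_erase_of_mem hyT]; omega
    have h1 := hS _ hTe (by omega)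
    apply AffineIndependent.affineIndependent_of_notMem_span (i := (⟨y, hyT⟩ : T))
    · let f : {x : T // x ≠ ⟨y, hyT⟩} ↪ (T.erase y : Finset (EuclideanSpace ℝ (Fin d))) :=
        ⟨fun x => ⟨x.1.1, Finset.mem_erase.mpr ⟨fun h => x.2 (Subtype.ext h), x.1.2⟩⟩, by
          intro a b hab
          apply Subtype.ext
          apply Subtype.ext
          simpa using hab⟩
      exact h1.comp_embedding f
    · intro hmem
      apply hy _ hTe hc
      refine affineSpan_mono ℝ ?_ hmem
      rintro _ ⟨x, hx, rfl⟩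
      simp only [Finset.coe_erase]
      exact ⟨x.2, fun h => hx (Subtype.ext h)⟩
  · exact hS T (fun x hx => (Finset.mem_insert.mp (hT hx)).resolve_left
      (fun h => hyT (h ▸ hx))) hTc

lemma genPos_empty : GenPos (∅ : Finset (EuclideanSpace ℝ (Fin d))) := by
  intro T hT _
  have : T = ∅ := Finset.subset_empty.mp hT
  subst this
  exact affineIndependent_of_subsingleton ℝ _

lemma exists_points (hd : 1 ≤ d) {ι : Type*} [Fintype ι]
    [DecidableEq (EuclideanSpace ℝ (Fin d))]
    (V : ι → Set (EuclideanSpace ℝ (Fin d)))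
    (hV : ∀ i, IsOpen (V i)) (hne : ∀ i, (V i).Nonempty) :
    ∃ p : ι → EuclideanSpace ℝ (Fin d), (∀ i, p i ∈ V i) ∧ Function.Injective p ∧
      GenPos (Finset.univ.image p) := by
  classical
  have key : ∀ s : Finset ι, ∃ p : ι → EuclideanSpace ℝ (Fin d), (∀ i ∈ s, p i ∈ V i) ∧
      Set.InjOn p s ∧ GenPos (s.image p) := by
    intro s
    induction s using Finset.induction_on with
    | empty => exact ⟨fun _ => 0, by simp, by simp, by simpa using genPos_empty⟩
    | insert a s ha ih =>
      obtain ⟨p, hp1, hp2, hp3⟩ := ih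
      obtain ⟨y, hyU, hy⟩ := exists_avoid (s.image p) (hV a) (hne a)
      have hyS : y ∉ s.image p := by
        intro hmem
        apply hy {y} (by simpa using hmem) (by simpa using hd)
        simp
      refine ⟨fun i => if i = a then y else p i, ?_, ?_, ?_⟩
      · intro i hi
        by_cases hia : i = a
        · subst hia; simpa using hyU
        · simp only [hia, if_false]
          exact hp1 i ((Finset.mem_insert.mp hi).resolve_left hia)
      · intro i hi j hj hij
        simp only [Finset.coe_insert, Set.mem_insert_iff, Finset.mem_coe] at hi hj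
        by_cases hia : i = a <;> by_cases hja : j = a
        · rw [hia, hja]
        · simp only [hia, hja, if_true, if_false] at hij
          exact absurd (Finset.mem_image.mpr ⟨j, hj.resolve_left hja, hij.symm⟩) hyS
        · simp only [hia, hja, if_true, if_false] at hij
          exact absurd (Finset.mem_image.mpr ⟨i, hi.resolve_left hia, hij⟩) hyS
        · simp only [hia, hja, if_false] at hij
          exact hp2 (hi.resolve_left hia) (hj.resolve_left hja) hij
      · have himg : (insert a s).image (fun i => if i = a then y else p i) =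
            insert y (s.image p) := by
          rw [Finset.image_insert]
          simp only [if_true]
          congr 1
          apply Finset.image_congr
          intro i hi
          have : i ≠ a := fun h => ha (h ▸ hi)
          simp [this]
        rw [himg]
        exact genPos_insert hp3 hy
  obtain ⟨p, h1, h2, h3⟩ := key Finset.univ
  exact ⟨p, fun i => h1 i (Finset.mem_univ i), by
    intro a b hab; exact h2 (by simp) (by simp) hab, h3⟩

end genpos

section clusters

variable {d : ℕ}

/-- The open box of radius `ρ` around the point with coordinates `c`. -/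
def box (ρ : ℝ) (c : Fin d → ℝ) : Set (EuclideanSpace ℝ (Fin d)) :=
  {y | ∀ j, |y j - c j| < ρ}

lemma isOpen_box (ρ : ℝ) (c : Fin d → ℝ) : IsOpen (box ρ c) := by
  have : box ρ c = ⋂ j, {y : EuclideanSpace ℝ (Fin d) | |y j - c j| < ρ} := by
    ext y; simp [box]
  rw [this]
  refine isOpen_iInter_of_finite fun j => ?_
  exact isOpen_lt (by fun_prop) continuous_const

lemma box_nonempty {ρ : ℝ} (hρ : 0 < ρ) (c : Fin d → ℝ) : (box ρ c).Nonempty :=
  ⟨WithLp.toLp 2 c, fun j => by simpa using hρ⟩

/-- The value of a functional on the box. -/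
lemma abs_map_sub_le {ρ : ℝ} {c : Fin d → ℝ} {y : EuclideanSpace ℝ (Fin d)}
    (hy : y ∈ box ρ c) (w : Fin d → ℝ) :
    |∑ j, w j * y j - ∑ j, w j * c j| ≤ ρ * ∑ j, |w j| := by
  rw [← Finset.sum_sub_distrib, Finset.mul_sum]
  refine (Finset.abs_sum_le_sum_abs _ _).trans (Finset.sum_le_sum fun j _ => ?_)
  rw [← mul_sub, abs_mul, mul_comm]
  exact mul_le_mul_of_nonneg_right (hy j).le (abs_nonneg _)

/-- The functional with coordinates `w`. -/
noncomputable def func (w : Fin d → ℝ) : EuclideanSpace ℝ (Fin d) →ₗ[ℝ] ℝ where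
  toFun y := ∑ j, w j * y j
  map_add' x y := by
    simp only [PiLp.add_apply, mul_add, Finset.sum_add_distrib]
  map_smul' a x := by
    simp only [PiLp.smul_apply, smul_eq_mul, RingHom.id_apply, Finset.mul_sum]
    exact Finset.sum_congr rfl fun j _ => by ring

lemma func_apply (w : Fin d → ℝ) (y : EuclideanSpace ℝ (Fin d)) :
    func w y = ∑ j, w j * y j := rfl

lemma func_ne_zero {w : Fin d → ℝ} (i : Fin d) (hi : w i ≠ 0) : func w ≠ 0 := by
  intro h
  have := LinearMap.congr_fun h (EuclideanSpace.single i (1 : ℝ))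
  simp [func_apply] at this
  exact hi this

lemma eq_func (l : EuclideanSpace ℝ (Fin d) →ₗ[ℝ] ℝ) :
    ∃ w : Fin d → ℝ, l = func w := by
  refine ⟨fun j => l (EuclideanSpace.single j 1), ?_⟩
  apply LinearMap.ext
  intro y
  have hy : y = ∑ j, y j • EuclideanSpace.single j (1 : ℝ) := by
    ext i
    simp [Pi.single_apply]
  conv_lhs => rw [hy]
  rw [map_sum, func_apply]
  exact Finset.sum_congr rfl fun j _ => by rw [map_smul, smul_eq_mul, mul_comm]

/-- The index type of the clusters. -/
abbrev Idx (d a b k : ℕ) := (Fin a ⊕ Fin k) ⊕ (Fin b ⊕ (Fin d × Fin k))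

/-- The centres of the clusters. -/
def ctr {d a b k : ℕ} : Idx d a b k → Fin d → ℝ
  | .inl (.inl _) => fun _ => -2
  | .inl (.inr _) => fun _ => 0
  | .inr (.inl _) => fun _ => 2
  | .inr (.inr (i, _)) => fun j => if j = i then -1 else 0

lemma sep_one (hd : 1 ≤ d) {a b k : ℕ} (p : Idx d a b k → EuclideanSpace ℝ (Fin d))
    (hp : ∀ x, p x ∈ box (1 / (16 * d)) (ctr x)) :
    ∃ (l : EuclideanSpace ℝ (Fin d) →ₗ[ℝ] ℝ) (c : ℝ), l ≠ 0 ∧
      (∀ x, c < l (p (.inl (.inl x)))) ∧ (∀ y, l (p (.inr y)) < c) := by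
  have hd0 : (0 : ℝ) < d := by exact_mod_cast hd
  have hd1 : (1 : ℝ) ≤ d := by exact_mod_cast hd
  have hL : (1 / (16 * d) : ℝ) * ∑ _j : Fin d, |(-1 : ℝ)| = 1 / 16 := by
    simp; field_simp
  refine ⟨func fun _ => -1, 3 / 2, func_ne_zero ⟨0, hd⟩ (by norm_num), ?_, ?_⟩
  · intro x
    have h := abs_map_sub_le (hp (.inl (.inl x))) (fun _ => (-1 : ℝ))
    rw [hL] at h
    have hc : ∑ j : Fin d, (-1 : ℝ) * ctr (Sum.inl (Sum.inl x) : Idx d a b k) j = 2 * d := by
      simp [ctr]; ring
    rw [hc, abs_le] at h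
    rw [func_apply]
    linarith [h.1]
  · rintro (y | ⟨i, y⟩)
    · have h := abs_map_sub_le (hp (.inr (.inl y))) (fun _ => (-1 : ℝ))
      rw [hL] at h
      have hc : ∑ j : Fin d, (-1 : ℝ) * ctr (Sum.inr (Sum.inl y) : Idx d a b k) j = -2 * d := by
        simp [ctr]; ring
      rw [hc, abs_le] at h
      rw [func_apply]
      linarith [h.2]
    · have h := abs_map_sub_le (hp (.inr (.inr (i, y)))) (fun _ => (-1 : ℝ))
      rw [hL] at h
      have hc : ∑ j : Fin d, (-1 : ℝ) * ctr (Sum.inr (Sum.inr (i, y)) : Idx d a b k) j = 1 := by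
        simp [ctr]
      rw [hc, abs_le] at h
      rw [func_apply]
      linarith [h.2]

lemma sep_two (hd : 1 ≤ d) {a b k : ℕ} (p : Idx d a b k → EuclideanSpace ℝ (Fin d))
    (hp : ∀ x, p x ∈ box (1 / (16 * d)) (ctr x)) (i : Fin d) :
    ∃ (l : EuclideanSpace ℝ (Fin d) →ₗ[ℝ] ℝ) (c : ℝ), l ≠ 0 ∧
      (∀ x, c < l (p (.inl x))) ∧ (∀ y, l (p (.inr (.inl y))) < c) ∧
      (∀ m y, m ≠ i → l (p (.inr (.inr (m, y)))) < c) := by
  have hd0 : (0 : ℝ) < d := by exact_mod_cast hd
  have hd1 : (1 : ℝ) ≤ d := by exact_mod_cast hd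
  set w : Fin d → ℝ := fun j => 1 - (if j = i then (d : ℝ) + 1 else 0) with hw
  have hL : (1 / (16 * d) : ℝ) * ∑ j : Fin d, |w j| ≤ 3 / 16 := by
    have h1 : ∑ j : Fin d, |w j| ≤ 2 * d + 1 := by
      calc ∑ j : Fin d, |w j| ≤ ∑ j : Fin d, (1 + (if j = i then (d : ℝ) + 1 else 0)) := by
            refine Finset.sum_le_sum fun j _ => ?_
            rw [hw]
            dsimp only
            split_ifs
            · rw [abs_le]; constructor <;> linarith
            · simp
        _ = 2 * d + 1 := by
            rw [Finset.sum_add_distrib]; simp; ring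
    calc (1 / (16 * d) : ℝ) * ∑ j : Fin d, |w j| ≤ (1 / (16 * d) : ℝ) * (2 * d + 1) := by
          gcongr
      _ ≤ (1 / (16 * d) : ℝ) * (3 * d) := by gcongr; linarith
      _ = 3 / 16 := by field_simp
  have hconst : ∀ t : ℝ, ∑ j : Fin d, w j * t = -t := by
    intro t
    rw [← Finset.sum_mul]
    simp [hw]
  refine ⟨func w, -1 / 2, func_ne_zero i (by simp [hw]; linarith), ?_, ?_, ?_⟩
  · rintro (x | x)
    · have h := abs_map_sub_le (hp (.inl (.inl x))) w
      have hc : ∑ j : Fin d, w j * ctr (Sum.inl (Sum.inl x) : Idx d a b k) j = 2 := by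
        simp only [ctr]; rw [hconst]; norm_num
      rw [hc] at h
      have h := abs_le.mp (h.trans hL)
      rw [func_apply]
      linarith [h.1]
    · have h := abs_map_sub_le (hp (.inl (.inr x))) w
      have hc : ∑ j : Fin d, w j * ctr (Sum.inl (Sum.inr x) : Idx d a b k) j = 0 := by
        simp only [ctr]; rw [hconst]; norm_num
      rw [hc] at h
      have h := abs_le.mp (h.trans hL)
      rw [func_apply]
      linarith [h.1]
  · intro y
    have h := abs_map_sub_le (hp (.inr (.inl y))) w
    have hc : ∑ j : Fin d, w j * ctr (Sum.inr (Sum.inl y) : Idx d a b k) j = -2 := by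
      simp only [ctr]; rw [hconst]
    rw [hc] at h
    have h := abs_le.mp (h.trans hL)
    rw [func_apply]
    linarith [h.2]
  · intro m y hm
    have h := abs_map_sub_le (hp (.inr (.inr (m, y)))) w
    have hc : ∑ j : Fin d, w j * ctr (Sum.inr (Sum.inr (m, y)) : Idx d a b k) j = -1 := by
      simp [ctr, hw, hm]
    rw [hc] at h
    have h := abs_le.mp (h.trans hL)
    rw [func_apply]
    linarith [h.2]

/-- No functional separates an `A_small` point from points of all `B_small i` and of `B_big`. -/
lemma no_sep (hd : 1 ≤ d) {a b k : ℕ} (p : Idx d a b k → EuclideanSpace ℝ (Fin d))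
    (hp : ∀ x, p x ∈ box (1 / (16 * d)) (ctr x))
    (l : EuclideanSpace ℝ (Fin d) →ₗ[ℝ] ℝ) (c : ℝ) (hl : l ≠ 0) (x : Fin k)
    (hx : c < l (p (.inl (.inr x)))) (y : Fin d → Fin k)
    (hy : ∀ i, l (p (.inr (.inr (i, y i)))) < c) (z : Fin b)
    (hz : l (p (.inr (.inl z))) < c) : False := by
  have hd0 : (0 : ℝ) < d := by exact_mod_cast hd
  have hd1 : (1 : ℝ) ≤ d := by exact_mod_cast hd
  obtain ⟨w, rfl⟩ := eq_func l
  set L := ∑ j, |w j| with hLdef
  have hLpos : 0 < L := by
    rw [hLdef]
    have hex : ∃ j, w j ≠ 0 := by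
      by_contra hcon
      push Not at hcon
      apply hl
      apply LinearMap.ext
      intro v
      simp [func_apply, hcon]
    obtain ⟨j, hj⟩ := hex
    exact Finset.sum_pos' (fun i _ => abs_nonneg _) ⟨j, Finset.mem_univ _, abs_pos.mpr hj⟩
  have hρ : (1 / (16 * d) : ℝ) ≤ 1 / 16 := by
    rw [div_le_div_iff₀ (by positivity) (by norm_num)]; linarith
  have hρL : (1 / (16 * d) : ℝ) * L ≤ L / 16 := by
    calc (1 / (16 * d) : ℝ) * L ≤ 1 / 16 * L := by gcongr
      _ = L / 16 := by ring
  have hx' := abs_map_sub_le (hp (.inl (.inr x))) w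
  have hcx : ∑ j : Fin d, w j * ctr (Sum.inl (Sum.inr x) : Idx d a b k) j = 0 := by
    simp [ctr]
  rw [hcx, abs_le] at hx'
  rw [func_apply] at hx
  have hc : c < (1 / (16 * d) : ℝ) * L := by linarith [hx'.2]
  have hi : ∀ i, |w i| ≤ w i + 4 * ((1 / (16 * d) : ℝ) * L) := by
    intro i
    have h := abs_map_sub_le (hp (.inr (.inr (i, y i)))) w
    have hci : ∑ j : Fin d, w j * ctr (Sum.inr (Sum.inr (i, y i)) : Idx d a b k) j = - w i := by
      simp [ctr]
    rw [hci, abs_le] at h
    have h2 := hy i
    rw [func_apply] at h2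
    have h3 : 0 ≤ (1 / (16 * d) : ℝ) * L := by positivity
    have h4 : - w i < 2 * ((1 / (16 * d) : ℝ) * L) := by linarith [h.1]
    rw [abs_le]
    constructor <;> linarith
  have hsum : L ≤ ∑ i, w i + L / 4 := by
    calc L ≤ ∑ i, (w i + 4 * ((1 / (16 * d) : ℝ) * L)) := Finset.sum_le_sum fun i _ => hi i
      _ = ∑ i, w i + L / 4 := by
          rw [Finset.sum_add_distrib]; simp; field_simp; norm_num
  have hz' := abs_map_sub_le (hp (.inr (.inl z))) w
  have hcz : ∑ j : Fin d, w j * ctr (Sum.inr (Sum.inl z) : Idx d a b k) j = 2 * ∑ i, w i := by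
    simp only [ctr]; rw [← Finset.sum_mul]; ring
  rw [hcz, abs_le] at hz'
  rw [func_apply] at hz
  linarith [hz'.1]

end clusters

section config

variable {d : ℕ}

open Classical in
/-- The bad sets of the cluster configuration meet all small clusters. -/
lemma bad_meets (hd : 1 ≤ d) {a b k : ℕ} (p : Idx d a b k → EuclideanSpace ℝ (Fin d))
    (hp : ∀ x, p x ∈ box (1 / (16 * d)) (ctr x))
    (T : Finset (EuclideanSpace ℝ (Fin d)))
    (hbad : ¬ Separated ((univ.image fun x => p (.inl x)) ∩ T)
      ((univ.image fun x => p (.inr x)) ∩ T)) :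
    (∃ x, p (.inl (.inr x)) ∈ T) ∧ ∀ i, ∃ y, p (.inr (.inr (i, y))) ∈ T := by
  constructor
  · by_contra hcon
    push Not at hcon
    apply hbad
    obtain ⟨l, c, hl, h1, h2⟩ := sep_one hd p hp
    refine ⟨l, c, hl, ?_, ?_⟩
    · intro x hx
      rw [Finset.mem_inter, Finset.mem_image] at hx
      obtain ⟨⟨u, -, rfl⟩, hxT⟩ := hx
      rcases u with u | u
      · exact h1 u
      · exact absurd hxT (hcon u)
    · intro x hx
      rw [Finset.mem_inter, Finset.mem_image] at hx
      obtain ⟨⟨u, -, rfl⟩, hxT⟩ := hx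
      exact h2 u
  · intro i
    by_contra hcon
    push Not at hcon
    apply hbad
    obtain ⟨l, c, hl, h1, h2, h3⟩ := sep_two hd p hp i
    refine ⟨l, c, hl, ?_, ?_⟩
    · intro x hx
      rw [Finset.mem_inter, Finset.mem_image] at hx
      obtain ⟨⟨u, -, rfl⟩, hxT⟩ := hx
      exact h1 u
    · intro x hx
      rw [Finset.mem_inter, Finset.mem_image] at hx
      obtain ⟨⟨u, -, rfl⟩, hxT⟩ := hx
      rcases u with u | ⟨m, u⟩
      · exact h2 u
      · by_cases hm : m = i
        · subst hm; exact absurd hxT (hcon u)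
        · exact h3 m u hm

open Classical in
/-- Bad sets are determined by their small cluster points and one further point. -/
lemma bad_subset (hd : 1 ≤ d) {a b k : ℕ} (p : Idx d a b k → EuclideanSpace ℝ (Fin d))
    (hp : ∀ x, p x ∈ box (1 / (16 * d)) (ctr x)) (hinj : Function.Injective p)
    (T : Finset (EuclideanSpace ℝ (Fin d))) (hTs : T ⊆ univ.image p) (hTc : T.card = d + 2)
    (hbad : ¬ Separated ((univ.image fun x => p (.inl x)) ∩ T)
      ((univ.image fun x => p (.inr x)) ∩ T)) :
    T ∈ (univ : Finset (Idx d a b k × Fin k × (Fin d → Fin k))).image fun q =>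
      insert (p q.1) (insert (p (.inl (.inr q.2.1)))
        (univ.image fun i => p (.inr (.inr (i, q.2.2 i))))) := by
  obtain ⟨⟨x, hx⟩, hy⟩ := bad_meets hd p hp T hbad
  choose y hy using hy
  set W := insert (p (.inl (.inr x))) (univ.image fun i => p (.inr (.inr (i, y i)))) with hW
  have hWT : W ⊆ T := by
    intro z hz
    rw [hW, Finset.mem_insert, Finset.mem_image] at hz
    rcases hz with rfl | ⟨i, -, rfl⟩
    · exact hx
    · exact hy i
  have hWc : W.card = d + 1 := by
    rw [hW, Finset.card_insert_of_notMem, Finset.card_image_of_injective]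
    · simp
    · intro i j hij
      have := hinj hij
      simp only [Sum.inr.injEq, Prod.mk.injEq] at this
      exact this.1
    · intro hmem
      rw [Finset.mem_image] at hmem
      obtain ⟨i, -, hi⟩ := hmem
      have := hinj hi
      simp at this
  obtain ⟨z, hzW, hzT⟩ := Finset.exists_eq_insert_iff.mpr ⟨hWT, by rw [hWc, hTc]⟩
  have hz : z ∈ T := by rw [← hzT]; exact Finset.mem_insert_self _ _
  obtain ⟨u, -, rfl⟩ := Finset.mem_image.mp (hTs hz)
  rw [Finset.mem_image]
  exact ⟨(u, x, y), Finset.mem_univ _, hzT⟩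

open Classical in
/-- The extremal configurations. -/
lemma exists_config (hd : 1 ≤ d) (N k : ℕ) (hk : (d + 1) * k ≤ N) :
    ∃ A B : Finset (EuclideanSpace ℝ (Fin d)), A.card = N ∧ B.card = N ∧ Disjoint A B ∧
      GenPos (A ∪ B) ∧
      (2 * N).choose (d + 2) ≤ (goodSets A B).card + 2 * N * k ^ (d + 1) ∧
      ∀ A' ⊆ A, ∀ B' ⊆ B, Separated A' B' → A'.card ≤ N - k ∨ B'.card ≤ N - k := by
  have hkN : k ≤ N := by nlinarith
  have hdk : d * k ≤ N - k := by
    have : (d + 1) * k = d * k + k := by ring
    omega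
  have hd0 : (0 : ℝ) < d := by exact_mod_cast hd
  obtain ⟨p, hp, hinj, hgp⟩ := exists_points hd
    (fun x : Idx d (N - k) (N - d * k) k => box (1 / (16 * d)) (ctr x))
    (fun x => isOpen_box _ _) (fun x => box_nonempty (by positivity) _)
  have hinl : Function.Injective fun x => p (.inl x) := hinj.comp Sum.inl_injective
  have hinr : Function.Injective fun x => p (.inr x) := hinj.comp Sum.inr_injective
  set A := univ.image fun x => p (.inl x) with hA
  set B := univ.image fun x => p (.inr x) with hB
  have hAc : A.card = N := by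
    rw [hA, Finset.card_image_of_injective _ hinl]
    simp
    omega
  have hBc : B.card = N := by
    rw [hB, Finset.card_image_of_injective _ hinr]
    simp
    omega
  have hdisj : Disjoint A B := by
    rw [Finset.disjoint_left]
    intro z hzA hzB
    obtain ⟨u, -, rfl⟩ := Finset.mem_image.mp hzA
    obtain ⟨v, -, hv⟩ := Finset.mem_image.mp hzB
    have := hinj hv
    simp at this
  have hAB : A ∪ B = univ.image p := by
    ext z
    rw [Finset.mem_union, hA, hB]
    simp only [Finset.mem_image, Finset.mem_univ, true_and]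
    constructor
    · rintro (⟨u, hu⟩ | ⟨u, hu⟩)
      exacts [⟨_, hu⟩, ⟨_, hu⟩]
    · rintro ⟨u | u, hu⟩
      exacts [Or.inl ⟨u, hu⟩, Or.inr ⟨u, hu⟩]
  refine ⟨A, B, hAc, hBc, hdisj, by rw [hAB]; exact hgp, ?_, ?_⟩
  · -- counting
    have hcard : (A ∪ B).card = 2 * N := by
      rw [Finset.card_union_of_disjoint hdisj, hAc, hBc]; ring
    have h1 : ((A ∪ B).powersetCard (d + 2)).card = (2 * N).choose (d + 2) := by
      rw [Finset.card_powersetCard, hcard]
    have h2 := Finset.card_filter_add_card_filter_not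
      (s := (A ∪ B).powersetCard (d + 2)) (fun S => Separated (A ∩ S) (B ∩ S))
    have h3 : (((A ∪ B).powersetCard (d + 2)).filter
        (fun S => ¬ Separated (A ∩ S) (B ∩ S))).card ≤ 2 * N * k ^ (d + 1) := by
      calc _ ≤ ((univ : Finset (Idx d (N - k) (N - d * k) k × Fin k × (Fin d → Fin k))).image
            fun q => insert (p q.1) (insert (p (.inl (.inr q.2.1)))
              (univ.image fun i => p (.inr (.inr (i, q.2.2 i)))))).card := by
            apply Finset.card_le_card
            intro T hT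
            rw [Finset.mem_filter, Finset.mem_powersetCard] at hT
            exact bad_subset hd p hp hinj T (by rw [← hAB]; exact hT.1.1) hT.1.2 hT.2
        _ ≤ (univ : Finset (Idx d (N - k) (N - d * k) k × Fin k × (Fin d → Fin k))).card :=
            Finset.card_image_le
        _ = 2 * N * k ^ (d + 1) := by
            rw [Finset.card_univ]
            simp only [Fintype.card_prod, Fintype.card_sum, Fintype.card_fin, Fintype.card_fun]
            have e1 : N - k + k = N := by omega
            have e2 : N - d * k + d * k = N := by omega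
            rw [e1, e2, pow_succ]
            ring
    rw [← h1, ← h2]
    unfold goodSets
    omega
  · rintro A' hA' B' hB' ⟨l, c, hl, h1, h2⟩
    by_cases hi : ∃ x, p (.inl (.inr x)) ∈ A'
    · by_cases hii : ∀ i, ∃ y, p (.inr (.inr (i, y))) ∈ B'
      · right
        obtain ⟨x, hx⟩ := hi
        choose y hy using hii
        have hz : ∀ z, p (.inr (.inl z)) ∉ B' := by
          intro z hz
          exact no_sep hd p hp l c hl x (h1 _ hx) y (fun i => h2 _ (hy i)) z (h2 _ hz)
        calc B'.card ≤ ((univ : Finset (Fin d × Fin k)).image fun q => p (.inr (.inr q))).card := by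
              apply Finset.card_le_card
              intro v hv
              obtain ⟨u, -, rfl⟩ := Finset.mem_image.mp (hB' hv)
              rcases u with u | u
              · exact absurd hv (hz u)
              · exact Finset.mem_image.mpr ⟨u, Finset.mem_univ _, rfl⟩
          _ ≤ (univ : Finset (Fin d × Fin k)).card := Finset.card_image_le
          _ = d * k := by simp
          _ ≤ N - k := hdk
      · right
        push Not at hii
        obtain ⟨i, hi⟩ := hii
        have hdisj2 : Disjoint B' ((univ : Finset (Fin k)).image fun y => p (.inr (.inr (i, y)))) := by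
          rw [Finset.disjoint_right]
          intro v hv hv2
          obtain ⟨y, -, rfl⟩ := Finset.mem_image.mp hv
          exact hi y hv2
        have hsub : B' ∪ ((univ : Finset (Fin k)).image fun y => p (.inr (.inr (i, y)))) ⊆ B := by
          apply Finset.union_subset hB'
          intro v hv
          obtain ⟨y, -, rfl⟩ := Finset.mem_image.mp hv
          exact Finset.mem_image.mpr ⟨_, Finset.mem_univ _, rfl⟩
        have hc := Finset.card_le_card hsub
        rw [Finset.card_union_of_disjoint hdisj2, hBc, Finset.card_image_of_injective] at hc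
        · simp at hc
          omega
        · intro y y' hyy
          have := hinj hyy
          simpa using this
    · left
      push Not at hi
      calc A'.card ≤ ((univ : Finset (Fin (N - k))).image fun q => p (.inl (.inl q))).card := by
            apply Finset.card_le_card
            intro v hv
            obtain ⟨u, -, rfl⟩ := Finset.mem_image.mp (hA' hv)
            rcases u with u | u
            · exact Finset.mem_image.mpr ⟨u, Finset.mem_univ _, rfl⟩
            · exact absurd hv (hi u)
        _ ≤ (univ : Finset (Fin (N - k))).card := Finset.card_image_le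
        _ = N - k := by simp

open Classical in
/-- The order `ε^(1/(d+1))` is sharp. -/
theorem works_lower (d : ℕ) (hd : 1 ≤ d) (g : ℝ → ℝ)
    (hg : ∀ ε : ℝ, 0 < ε → ∀ (N : ℕ) (A B : Finset (EuclideanSpace ℝ (Fin d))),
      d < 2 * N → A.card = N → B.card = N → Disjoint A B → GenPos (A ∪ B) →
      (1 - ε) * ((2 * N).choose (d + 2) : ℝ) ≤ ((goodSets A B).card : ℝ) →
      ∃ A' ⊆ A, ∃ B' ⊆ B, Separated A' B' ∧
        (1 - g ε) * N ≤ (A'.card : ℝ) ∧ (1 - g ε) * N ≤ (B'.card : ℝ))
    (ε : ℝ) (hε : 0 < ε)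
    (hε' : ε ≤ 2 * ((d + 2).factorial : ℝ) / ((d : ℝ) + 1) ^ (d + 1)) :
    (ε / (2 * ((d + 2).factorial : ℝ))) ^ ((1 : ℝ) / (d + 1)) ≤ g ε := by
  classical
  set F : ℝ := ((d + 2).factorial : ℝ) with hF
  have hFpos : 0 < F := by rw [hF]; exact_mod_cast Nat.factorial_pos _
  set κ : ℝ := (ε / (2 * F)) ^ ((1 : ℝ) / (d + 1)) with hκ
  have hq : 0 < ε / (2 * F) := by positivity
  have hκpos : 0 < κ := Real.rpow_pos_of_pos hq _
  have hκpow : κ ^ (d + 1) = ε / (2 * F) := by
    rw [hκ, ← Real.rpow_natCast, ← Real.rpow_mul hq.le]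
    have : (1 : ℝ) / (d + 1) * ((d + 1 : ℕ) : ℝ) = 1 := by
      push_cast; field_simp
    rw [this, Real.rpow_one]
  have hd1 : (0 : ℝ) < (d : ℝ) + 1 := by positivity
  have hκle : κ ≤ 1 / ((d : ℝ) + 1) := by
    apply le_of_pow_le_pow_left₀ (n := d + 1) (by omega) (by positivity)
    rw [hκpow, div_pow, one_pow, div_le_div_iff₀ (by positivity) (by positivity)]
    rw [le_div_iff₀ (by positivity)] at hε'
    linarith
  have key : ∀ N : ℕ, d + 1 ≤ N → κ - 1 / N ≤ g ε := by
    intro N hN
    have hN0 : (0 : ℝ) < N := by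
      have : 0 < N := by omega
      exact_mod_cast this
    set k := ⌊κ * N⌋₊ with hk
    have hk1 : (k : ℝ) ≤ κ * N := Nat.floor_le (by positivity)
    have hk2 : κ * N < k + 1 := Nat.lt_floor_add_one _
    have hkN : (d + 1) * k ≤ N := by
      have : ((d : ℝ) + 1) * k ≤ N := by
        calc ((d : ℝ) + 1) * k ≤ ((d : ℝ) + 1) * (κ * N) := by gcongr
          _ ≤ ((d : ℝ) + 1) * (1 / ((d : ℝ) + 1) * N) := by gcongr
          _ = N := by field_simp
      exact_mod_cast this
    obtain ⟨A, B, hA, hB, hdis, hgp, hcount, hsep⟩ := exists_config hd N k hkN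
    have hchoose : (N : ℝ) ^ (d + 2) / F ≤ ((2 * N).choose (d + 2) : ℝ) := by
      have h := Nat.pow_le_choose (α := ℝ) (d + 2) (2 * N)
      refine le_trans ?_ h
      rw [hF]
      gcongr
      have : N ≤ 2 * N + 1 - (d + 2) := by omega
      exact_mod_cast this
    have hbad : (2 * N * k ^ (d + 1) : ℝ) ≤ ε * ((2 * N).choose (d + 2) : ℝ) := by
      calc (2 * N * k ^ (d + 1) : ℝ) ≤ 2 * N * (κ * N) ^ (d + 1) := by gcongr
        _ = 2 * N * (ε / (2 * F) * N ^ (d + 1)) := by rw [mul_pow, hκpow]
        _ = ε * (N ^ (d + 2) / F) := by field_simp; ring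
        _ ≤ ε * ((2 * N).choose (d + 2) : ℝ) := by gcongr
    have hcount' : ((2 * N).choose (d + 2) : ℝ) ≤
        ((goodSets A B).card : ℝ) + 2 * N * k ^ (d + 1) := by exact_mod_cast hcount
    obtain ⟨A', hA', B', hB', hs, h1, h2⟩ := hg ε hε N A B (by omega) hA hB hdis hgp (by linarith)
    have hkN' : k ≤ N := by nlinarith
    have hfin : (1 - g ε) * N ≤ N - k := by
      rcases hsep A' hA' B' hB' hs with h | h
      · have : (A'.card : ℝ) ≤ ((N - k : ℕ) : ℝ) := by exact_mod_cast h
        rw [Nat.cast_sub hkN'] at this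
        linarith
      · have : (B'.card : ℝ) ≤ ((N - k : ℕ) : ℝ) := by exact_mod_cast h
        rw [Nat.cast_sub hkN'] at this
        linarith
    have h5 : (k : ℝ) ≤ g ε * N := by linarith
    have h6 : κ * N - 1 ≤ g ε * N := by linarith
    calc κ - 1 / N = (κ * N - 1) / N := by field_simp
      _ ≤ (g ε * N) / N := by gcongr
      _ = g ε := by field_simp
  by_contra hcon
  push Not at hcon
  obtain ⟨n, hn⟩ := exists_nat_one_div_lt (sub_pos.mpr hcon)
  have h := key (max (n + 1) (d + 1)) (le_max_right _ _)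
  have h2 : (1 : ℝ) / ((max (n + 1) (d + 1) : ℕ) : ℝ) ≤ 1 / ((n : ℝ) + 1) := by
    apply one_div_le_one_div_of_le (by positivity)
    have : n + 1 ≤ max (n + 1) (d + 1) := le_max_left _ _
    exact_mod_cast this
  linarith

end config

end Kirch553
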