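import Pool.Agent.Kirch553.VecMain

/-!
Positive-fraction Kirchberger theorem: definitions and the upper bound `g(ε) = 16 ε^(1/(d+1))`.
-/

namespace Kirch553

open scoped RealInnerProductSpace
open Finset

/-- `P` lies in one open half-space bounded by a hyperplane and `Q` lies in the other. -/
def Separated {d : ℕ} (P Q : Finset (EuclideanSpace ℝ (Fin d))) : Prop :=
  ∃ (l : EuclideanSpace ℝ (Fin d) →ₗ[ℝ] ℝ) (c : ℝ), l ≠ 0 ∧
    (∀ x ∈ P, c < l x) ∧ (∀ y ∈ Q, l y < c)

/-- General position: any `d + 1` (or fewer) points are affinely independent. -/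
def GenPos {d : ℕ} (S : Finset (EuclideanSpace ℝ (Fin d))) : Prop :=
  ∀ T ⊆ S, T.card ≤ d + 1 → AffineIndependent ℝ (fun x : T => (x : EuclideanSpace ℝ (Fin d)))

open Classical in
/-- The good `(d + 2)`-subsets of `A ∪ B`. -/
noncomputable def goodSets {d : ℕ} (A B : Finset (EuclideanSpace ℝ (Fin d))) :
    Finset (Finset (EuclideanSpace ℝ (Fin d))) :=
  ((A ∪ B).powersetCard (d + 2)).filter fun S => Separated (A ∩ S) (B ∩ S)

open Classical in
/-- `Works d g`: if at least a `(1 - ε)` fraction of the `(d + 2)`-subsets of `A ∪ B` is good then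
there are separated `A' ⊆ A`, `B' ⊆ B` with at least `(1 - g ε) N` points each. -/
def Works (d : ℕ) (g : ℝ → ℝ) : Prop :=
  ∀ ε : ℝ, 0 < ε → ∀ (N : ℕ) (A B : Finset (EuclideanSpace ℝ (Fin d))),
    A.card = N → B.card = N → Disjoint A B → GenPos (A ∪ B) →
    (1 - ε) * ((2 * N).choose (d + 2) : ℝ) ≤ ((goodSets A B).card : ℝ) →
    ∃ A' ⊆ A, ∃ B' ⊆ B, Separated A' B' ∧
      (1 - g ε) * N ≤ (A'.card : ℝ) ∧ (1 - g ε) * N ≤ (B'.card : ℝ)

section lift

variable {d : ℕ}

/-- The space of the lift. -/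
abbrev EL (d : ℕ) := WithLp 2 (EuclideanSpace ℝ (Fin d) × ℝ)

lemma finrank_EL (d : ℕ) : Module.finrank ℝ (EL d) = d + 1 := by
  rw [(WithLp.linearEquiv 2 ℝ (EuclideanSpace ℝ (Fin d) × ℝ)).finrank_eq]
  simp

open Classical in
/-- The sign of a point. -/
noncomputable def sg (A : Finset (EuclideanSpace ℝ (Fin d))) (x : EuclideanSpace ℝ (Fin d)) : ℝ :=
  if x ∈ A then 1 else -1

/-- The lift: `(x, -1)` for `x ∈ A`, and `(-x, 1)` otherwise. -/
noncomputable def lift (A : Finset (EuclideanSpace ℝ (Fin d))) (x : EuclideanSpace ℝ (Fin d)) :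
    EL d := sg A x • WithLp.toLp 2 (x, (-1 : ℝ))

lemma sg_ne_zero (A : Finset (EuclideanSpace ℝ (Fin d))) (x : EuclideanSpace ℝ (Fin d)) :
    sg A x ≠ 0 := by
  unfold sg; split_ifs <;> norm_num

lemma indep_of_genPos (A : Finset (EuclideanSpace ℝ (Fin d)))
    {S : Finset (EuclideanSpace ℝ (Fin d))}
    (hS : AffineIndependent ℝ (fun x : S => (x : EuclideanSpace ℝ (Fin d)))) :
    LinearIndepOn ℝ (lift A) (S : Set (EuclideanSpace ℝ (Fin d))) := by
  classical
  rw [linearIndepOn_finset_iff]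
  intro f hf i hi
  have h1 : WithLp.ofLp (∑ i ∈ S, f i • lift A i) =
      (∑ i ∈ S, (f i * sg A i) • i, ∑ i ∈ S, (f i * sg A i) * (-1)) := by
    rw [WithLp.ofLp_sum]
    ext1
    · rw [Prod.fst_sum]
      refine Finset.sum_congr rfl fun j _ => ?_
      simp [lift, mul_smul]
    · rw [Prod.snd_sum]
      refine Finset.sum_congr rfl fun j _ => ?_
      simp [lift]
  rw [hf] at h1
  have h2 : ∑ i ∈ S, (f i * sg A i) • i = 0 := by
    have := congrArg Prod.fst h1
    simpa using this.symm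
  have h3 : ∑ i ∈ S, (f i * sg A i) = 0 := by
    have := congrArg Prod.snd h1
    simp only [WithLp.ofLp_zero, Prod.snd_zero, ← Finset.sum_mul] at this
    linarith
  have := affineIndependent_iff.mp hS Finset.univ (fun x : S => f x * sg A x)
    (by rw [Finset.sum_coe_sort S (fun x => f x * sg A x)]; exact h3)
    (by rw [Finset.sum_coe_sort S (fun x => (f x * sg A x) • x)]; exact h2) ⟨i, hi⟩
    (Finset.mem_univ _)
  exact (mul_eq_zero.mp this).resolve_right (sg_ne_zero A i)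

lemma not_isBad_of_separated [DecidableEq (EuclideanSpace ℝ (Fin d))]
    {A B T : Finset (EuclideanSpace ℝ (Fin d))}
    (hdis : Disjoint A B) (hT : T ⊆ A ∪ B) (h : Separated (A ∩ T) (B ∩ T)) :
    ¬ IsBad (lift A) T := by
  obtain ⟨l, c, -, hA, hB⟩ := h
  intro hbad
  let F : EL d →ₗ[ℝ] ℝ :=
    (l ∘ₗ LinearMap.fst ℝ _ _ + c • LinearMap.snd ℝ _ _) ∘ₗ
      (WithLp.linearEquiv 2 ℝ (EuclideanSpace ℝ (Fin d) × ℝ)).toLinearMap
  have hpos : ∀ x ∈ T, 0 < F (lift A x) := by
    intro x hx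
    by_cases hxA : x ∈ A
    · have h1 := hA x (Finset.mem_inter.mpr ⟨hxA, hx⟩)
      have : F (lift A x) = l x - c := by
        simp [F, lift, sg, hxA]; ring
      rw [this]; linarith
    · have hxB : x ∈ B := (Finset.mem_union.mp (hT hx)).resolve_left hxA
      have h1 := hB x (Finset.mem_inter.mpr ⟨hxB, hx⟩)
      have : F (lift A x) = c - l x := by
        simp [F, lift, sg, hxA]; ring
      rw [this]; linarith
  have hsub : convexHull ℝ (lift A '' (T : Set (EuclideanSpace ℝ (Fin d)))) ⊆ {y | 0 < F y} := by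
    apply convexHull_min
    · rintro y ⟨x, hx, rfl⟩
      exact hpos x hx
    · exact convex_halfSpace_gt F.isLinear 0
  have := hsub hbad
  simp at this

end lift

lemma separated_empty {d : ℕ} (hd : 1 ≤ d) :
    Separated (∅ : Finset (EuclideanSpace ℝ (Fin d))) ∅ := by
  refine ⟨(EuclideanSpace.proj (⟨0, hd⟩ : Fin d) : EuclideanSpace ℝ (Fin d) →L[ℝ] ℝ), 0, ?_,
    by simp, by simp⟩
  intro h
  have := LinearMap.congr_fun h (EuclideanSpace.single ⟨0, hd⟩ (1 : ℝ))
  simp at this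

/-- The numerical estimate for the sample size. -/
lemma sample_size {d : ℕ} (hd : 1 ≤ d) {ε t : ℝ} (ht : 0 < t) (htε : t ^ (d + 1) = ε) :
    ε * ((⌊((d : ℝ) + 1) / (4 * t)⌋₊).choose (d + 1)) ≤ 1 / 2 := by
  set m := ⌊((d : ℝ) + 1) / (4 * t)⌋₊ with hm
  have hmle : (m : ℝ) ≤ ((d : ℝ) + 1) / (4 * t) := Nat.floor_le (by positivity)
  have h1 : ((m.choose (d + 1) : ℕ) : ℝ) ≤ (m : ℝ) ^ (d + 1) / ((d + 1).factorial : ℝ) :=
    Nat.choose_le_pow_div (d + 1) m
  have h2 : (m : ℝ) ^ (d + 1) ≤ (((d : ℝ) + 1) / (4 * t)) ^ (d + 1) :=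
    pow_le_pow_left₀ (Nat.cast_nonneg _) hmle _
  have h3 : ((d : ℝ) + 1) ^ (d + 1) / ((d + 1).factorial : ℝ) ≤ Real.exp ((d : ℝ) + 1) := by
    have := Real.pow_div_factorial_le_exp (x := (d : ℝ) + 1) (by positivity) (d + 1)
    exact this
  have h4 : ((m.choose (d + 1) : ℕ) : ℝ) ≤ Real.exp ((d : ℝ) + 1) / (4 ^ (d + 1) * ε) := by
    calc ((m.choose (d + 1) : ℕ) : ℝ) ≤ (m : ℝ) ^ (d + 1) / ((d + 1).factorial : ℝ) := h1
      _ ≤ (((d : ℝ) + 1) / (4 * t)) ^ (d + 1) / ((d + 1).factorial : ℝ) := by gcongr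
      _ = (((d : ℝ) + 1) ^ (d + 1) / ((d + 1).factorial : ℝ)) / (4 ^ (d + 1) * ε) := by
          rw [div_pow, mul_pow, htε]; field_simp
      _ ≤ _ := by
          have : 0 < ε := by rw [← htε]; positivity
          gcongr
  have hε : 0 < ε := by rw [← htε]; positivity
  have h5 : ε * ((m.choose (d + 1) : ℕ) : ℝ) ≤ (Real.exp 1 / 4) ^ (d + 1) := by
    calc ε * ((m.choose (d + 1) : ℕ) : ℝ) ≤ ε * (Real.exp ((d : ℝ) + 1) / (4 ^ (d + 1) * ε)) := by
          gcongr
      _ = (Real.exp 1 / 4) ^ (d + 1) := by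
          have : Real.exp ((d : ℝ) + 1) = Real.exp 1 ^ (d + 1) := by
            rw [← Real.exp_nat_mul]; push_cast; ring_nf
          rw [this, div_pow]; field_simp
  have he : Real.exp 1 < 2.7182818286 := Real.exp_one_lt_d9
  have he0 : 0 < Real.exp 1 := Real.exp_pos 1
  have h6 : (Real.exp 1 / 4) ^ (d + 1) ≤ (Real.exp 1 / 4) ^ 2 := by
    apply pow_le_pow_of_le_one (by positivity) (by linarith) (by omega)
  have h7 : (Real.exp 1 / 4) ^ 2 ≤ 1 / 2 := by nlinarith
  linarith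

/-- The upper bound. -/
theorem works_upper (d : ℕ) (hd : 1 ≤ d) :
    Works d (fun ε => 16 * ε ^ ((1 : ℝ) / (d + 1))) := by
  classical
  intro ε hε N A B hA hB hdis hGP hgood
  set t : ℝ := ε ^ ((1 : ℝ) / (d + 1)) with ht
  have ht0 : 0 < t := Real.rpow_pos_of_pos hε _
  have htε : t ^ (d + 1) = ε := by
    rw [ht, ← Real.rpow_natCast, ← Real.rpow_mul hε.le]
    have : (1 : ℝ) / (d + 1) * ((d + 1 : ℕ) : ℝ) = 1 := by push_cast; field_simp
    rw [this, Real.rpow_one]
  -- trivial choice when `16 t ≥ 1`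
  have triv : 1 ≤ 16 * t → ∃ A' ⊆ A, ∃ B' ⊆ B, Separated A' B' ∧
      (1 - 16 * t) * N ≤ (A'.card : ℝ) ∧ (1 - 16 * t) * N ≤ (B'.card : ℝ) := by
    intro h
    refine ⟨∅, by simp, ∅, by simp, separated_empty hd, ?_, ?_⟩ <;>
    · simp only [Finset.card_empty, Nat.cast_zero]
      exact mul_nonpos_of_nonpos_of_nonneg (by linarith) (Nat.cast_nonneg _)
  by_cases ht4 : 1 / 4 < t
  · exact triv (by linarith)
  push Not at ht4
  set m := ⌊((d : ℝ) + 1) / (4 * t)⌋₊ with hm
  have hDm : Module.finrank ℝ (EL d) ≤ m := by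
    rw [finrank_EL, hm]
    apply Nat.le_floor
    rw [le_div_iff₀ (by positivity)]
    push_cast
    have : (0 : ℝ) ≤ d := Nat.cast_nonneg _
    nlinarith
  have hm1 : ((d : ℝ) + 1) / (4 * t) < m + 1 := Nat.lt_floor_add_one _
  have hPc : (A ∪ B).card = 2 * N := by
    rw [Finset.card_union_of_disjoint hdis, hA, hB]; ring
  have hbad : ∀ F : Finset (Finset (EuclideanSpace ℝ (Fin d))),
      F ⊆ (A ∪ B).powersetCard (Module.finrank ℝ (EL d) + 1) →
      (∀ T ∈ F, IsBad (lift A) T) →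
      (F.card : ℝ) ≤ ε * ((A ∪ B).card.choose (Module.finrank ℝ (EL d) + 1)) := by
    intro F hF hFbad
    rw [finrank_EL] at hF ⊢
    have hgs : goodSets A B ⊆ (A ∪ B).powersetCard (d + 2) := by
      intro T hT
      exact (Finset.mem_filter.mp hT).1
    have hdisj : Disjoint F (goodSets A B) := by
      rw [Finset.disjoint_left]
      intro T hTF hTg
      have h1 := Finset.mem_filter.mp hTg
      exact not_isBad_of_separated hdis (Finset.mem_powersetCard.mp h1.1).1 h1.2 (hFbad T hTF)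
    have hcard : F.card + (goodSets A B).card ≤ (2 * N).choose (d + 2) := by
      rw [← hPc, ← Finset.card_powersetCard, ← Finset.card_union_of_disjoint hdisj]
      exact Finset.card_le_card (Finset.union_subset hF hgs)
    have hcard' : (F.card : ℝ) + (goodSets A B).card ≤ ((2 * N).choose (d + 2) : ℕ) := by
      exact_mod_cast hcard
    rw [hPc]
    have e : d + 1 + 1 = d + 2 := rfl
    rw [e]
    nlinarith
  have hGPv : VecGP (lift A) (A ∪ B) := by
    intro S hS hSc
    rw [finrank_EL] at hSc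
    exact indep_of_genPos A (hGP S hS hSc)
  have hεm : ε * (m.choose (Module.finrank ℝ (EL d))) ≤ 1 / 2 := by
    rw [finrank_EL]
    exact sample_size hd ht0 htε
  obtain ⟨f, K, hK, hKc, hf⟩ := vec_main (lift A) (A ∪ B) hε.le hGPv hDm hbad hεm
  -- size of the deleted set
  have hKle : (K.card : ℝ) ≤ 16 * t * N := by
    rw [finrank_EL, hPc] at hKc
    have h1 : K.card * (m + 1) ≤ 2 * (d + 1) * (2 * N) :=
      hKc.trans (Nat.mul_le_mul_left _ (Nat.sub_le _ _))
    have h2 : (K.card : ℝ) * (m + 1) ≤ 2 * (d + 1) * (2 * N) := by exact_mod_cast h1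
    have h3 : (K.card : ℝ) * (((d : ℝ) + 1) / (4 * t)) ≤ (K.card : ℝ) * (m + 1) :=
      mul_le_mul_of_nonneg_left hm1.le (Nat.cast_nonneg _)
    have h4 : (K.card : ℝ) * (((d : ℝ) + 1) / (4 * t)) ≤ 2 * (d + 1) * (2 * N) := h3.trans h2
    have hd0 : (0 : ℝ) < (d : ℝ) + 1 := by positivity
    rw [← mul_div_assoc, div_le_iff₀ (by positivity)] at h4
    have h5 : (K.card : ℝ) * ((d : ℝ) + 1) ≤ (16 * t * N) * ((d : ℝ) + 1) := by linarith
    exact le_of_mul_le_mul_right h5 hd0
  by_cases h16 : 1 ≤ 16 * t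
  · exact triv h16
  push Not at h16
  set A' := A.filter fun u => u ∉ K with hA'
  set B' := B.filter fun u => u ∉ K with hB'
  have hA'c : (N : ℝ) - K.card ≤ A'.card := by
    have h1 : A.card ≤ A'.card + K.card := by
      have : A ⊆ A' ∪ K := by
        intro x hx
        by_cases h : x ∈ K
        · exact Finset.mem_union_right _ h
        · exact Finset.mem_union_left _ (Finset.mem_filter.mpr ⟨hx, h⟩)
      exact (Finset.card_le_card this).trans (Finset.card_union_le _ _)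
    rw [hA] at h1
    have : (N : ℝ) ≤ A'.card + K.card := by exact_mod_cast h1
    linarith
  have hB'c : (N : ℝ) - K.card ≤ B'.card := by
    have h1 : B.card ≤ B'.card + K.card := by
      have : B ⊆ B' ∪ K := by
        intro x hx
        by_cases h : x ∈ K
        · exact Finset.mem_union_right _ h
        · exact Finset.mem_union_left _ (Finset.mem_filter.mpr ⟨hx, h⟩)
      exact (Finset.card_le_card this).trans (Finset.card_union_le _ _)
    rw [hB] at h1
    have : (N : ℝ) ≤ B'.card + K.card := by exact_mod_cast h1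
    linarith
  rcases Nat.eq_zero_or_pos N with hN | hN
  · subst hN
    refine ⟨∅, by simp, ∅, by simp, separated_empty hd, ?_, ?_⟩ <;> simp
  have hNR : (0 : ℝ) < N := by exact_mod_cast hN
  have hA'pos : (0 : ℝ) < A'.card := by nlinarith
  have hB'pos : (0 : ℝ) < B'.card := by nlinarith
  obtain ⟨a0, ha0⟩ : A'.Nonempty := Finset.card_pos.mp (by exact_mod_cast hA'pos)
  obtain ⟨b0, hb0⟩ : B'.Nonempty := Finset.card_pos.mp (by exact_mod_cast hB'pos)
  let l : EuclideanSpace ℝ (Fin d) →ₗ[ℝ] ℝ :=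
    f ∘ₗ (WithLp.linearEquiv 2 ℝ (EuclideanSpace ℝ (Fin d) × ℝ)).symm.toLinearMap ∘ₗ
      LinearMap.inl ℝ _ _
  set c : ℝ := f (WithLp.toLp 2 (0, 1)) with hc
  have hsplit : ∀ x : EuclideanSpace ℝ (Fin d), f (WithLp.toLp 2 (x, (-1 : ℝ))) = l x - c := by
    intro x
    have e : (WithLp.toLp 2 (x, (-1 : ℝ)) : EL d) =
        WithLp.toLp 2 (x, (0 : ℝ)) - WithLp.toLp 2 ((0 : EuclideanSpace ℝ (Fin d)), (1 : ℝ)) := by
      rw [← WithLp.toLp_sub]; simp
    rw [e, map_sub]
    rfl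
  have hAl : ∀ x ∈ A', c < l x := by
    intro x hx
    have hx' := Finset.mem_filter.mp hx
    have h1 := hf x (Finset.mem_union_left _ hx'.1) hx'.2
    rw [lift, sg, if_pos hx'.1, one_smul, hsplit] at h1
    linarith
  have hBl : ∀ x ∈ B', l x < c := by
    intro x hx
    have hx' := Finset.mem_filter.mp hx
    have hxA : x ∉ A := fun h => (Finset.disjoint_left.mp hdis h) hx'.1
    have h1 := hf x (Finset.mem_union_right _ hx'.1) hx'.2
    rw [lift, sg, if_neg hxA, map_smul, hsplit, smul_eq_mul] at h1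
    linarith
  refine ⟨A', Finset.filter_subset _ _, B', Finset.filter_subset _ _, ⟨l, c, ?_, hAl, hBl⟩, ?_, ?_⟩
  · intro h0
    have h1 := hAl a0 ha0
    have h2 := hBl b0 hb0
    rw [h0] at h1 h2
    simp only [LinearMap.zero_apply] at h1 h2
    linarith
  · change (1 - 16 * t) * N ≤ _
    linarith
  · change (1 - 16 * t) * N ≤ _
    linarith

end Kirch553
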