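import Pool.Agent.Kirch553.Count

/-!
The vector form: few origin-containing simplices force a half-space with few points outside.
-/

namespace Kirch553

open scoped RealInnerProductSpace
open Finset

variable {E : Type*} [NormedAddCommGroup E] [InnerProductSpace ℝ E] [FiniteDimensional ℝ E]
variable {ι : Type*} [DecidableEq ι] (v : ι → E) (P : Finset ι)

/-- Averaging: a good pair with few violators. -/
lemma exists_good_pair {m : ℕ} {ε : ℝ} (hm : Module.finrank ℝ E ≤ m) (hmn : m < P.card)
    (hbad : ∀ F : Finset (Finset ι), F ⊆ P.powersetCard (Module.finrank ℝ E + 1) →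
      (∀ T ∈ F, IsBad v T) → (F.card : ℝ) ≤ ε * (P.card.choose (Module.finrank ℝ E + 1)))
    (hε : ε * (m.choose (Module.finrank ℝ E)) ≤ 1 / 2) :
    ∃ a ∈ P, ∃ R ⊆ P.erase a, R.card = m ∧ - v a ∉ cone v R ∧
      (viol v P a R).card * (m + 1) ≤ 2 * Module.finrank ℝ E * (P.card - (m + 1)) := by
  classical
  set D := Module.finrank ℝ E with hD
  set n := P.card with hn
  set X := (P.sigma fun a => ((P.erase a).powersetCard m).filter fun R => - v a ∈ cone v R) with hX
  set G := (P.sigma fun a => ((P.erase a).powersetCard m).filter fun R => - v a ∉ cone v R) with hG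
  obtain ⟨n', hn'⟩ : ∃ n', n = n' + 1 := ⟨n - 1, by omega⟩
  -- total number of pairs
  set Tt := n * (n - 1).choose m with hTt
  have hTt1 : Tt = n.choose (m + 1) * (m + 1) := by
    rw [hTt, hn', Nat.add_sub_cancel]
    exact Nat.add_one_mul_choose_eq n' m
  have hTt0 : 0 < Tt := by
    rw [hTt1]; exact Nat.mul_pos (Nat.choose_pos (by omega)) (by omega)
  have htot : X.card + G.card = Tt := by
    rw [hX, hG, card_sigma, card_sigma, ← Finset.sum_add_distrib]
    have : ∀ a ∈ P, (((P.erase a).powersetCard m).filter fun R => - v a ∈ cone v R).card +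
        (((P.erase a).powersetCard m).filter fun R => - v a ∉ cone v R).card =
        (n - 1).choose m := by
      intro a ha
      rw [Finset.card_filter_add_card_filter_not, card_powersetCard, card_erase_of_mem ha]
    rw [Finset.sum_congr rfl this, Finset.sum_const, smul_eq_mul]
  -- bad pairs
  have hXle : (X.card : ℝ) ≤ ε * (m.choose D) * Tt := by
    have h1 := card_bad_pairs_le v P hm
    have h2 := hbad ((P.powersetCard (D + 1)).filter fun T => IsBad v T)
      (Finset.filter_subset _ _) (fun T hT => (Finset.mem_filter.mp hT).2)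
    have hid : n.choose (D + 1) * ((D + 1) * (n - (D + 1)).choose (m - D)) =
        m.choose D * Tt := by
      have e1 : n.choose (D + 1) * (D + 1) = n * (n - 1).choose D := by
        rw [hn', Nat.add_sub_cancel]
        exact (Nat.add_one_mul_choose_eq n' D).symm
      have e2 : (n - 1).choose m * m.choose D = (n - 1).choose D * (n - 1 - D).choose (m - D) :=
        Nat.choose_mul hm
      have e3 : n - (D + 1) = n - 1 - D := by omega
      rw [← mul_assoc, e1, e3, mul_assoc, ← e2, hTt]
      ring
    have h3 : (X.card : ℝ) ≤ (((P.powersetCard (D + 1)).filter fun T => IsBad v T).card : ℝ) *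
        ((D + 1) * (n - (D + 1)).choose (m - D) : ℕ) := by
      exact_mod_cast h1
    calc (X.card : ℝ) ≤ _ := h3
      _ ≤ (ε * (n.choose (D + 1))) * ((D + 1) * (n - (D + 1)).choose (m - D) : ℕ) := by
          apply mul_le_mul_of_nonneg_right h2 (Nat.cast_nonneg _)
      _ = ε * ((n.choose (D + 1) * ((D + 1) * (n - (D + 1)).choose (m - D)) : ℕ) : ℝ) := by
          push_cast; ring
      _ = ε * ((m.choose D * Tt : ℕ) : ℝ) := by rw [hid]
      _ = ε * (m.choose D) * Tt := by push_cast; ring
  have hTtR : (0 : ℝ) < Tt := by exact_mod_cast hTt0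
  have hGge : (Tt : ℝ) / 2 ≤ G.card := by
    have h1 : (X.card : ℝ) + G.card = Tt := by exact_mod_cast htot
    have h2 : ε * (m.choose D) * Tt ≤ 1 / 2 * Tt :=
      mul_le_mul_of_nonneg_right hε hTtR.le
    linarith
  have hGne : G.Nonempty := by
    rw [← Finset.card_pos]
    have : (0 : ℝ) < G.card := by linarith
    exact_mod_cast this
  -- violators
  have hviol : ∑ p ∈ G, (viol v P p.1 p.2).card ≤ n * (D * (n - 1).choose (m + 1)) := by
    calc ∑ p ∈ G, (viol v P p.1 p.2).card
        ≤ ∑ p ∈ P.sigma fun a => (P.erase a).powersetCard m, (viol v P p.1 p.2).card := by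
          apply Finset.sum_le_sum_of_subset
          rintro ⟨a, R⟩ hp
          simp only [hG, mem_sigma, mem_filter] at hp ⊢
          exact ⟨hp.1, hp.2.1⟩
      _ = ∑ a ∈ P, ∑ R ∈ (P.erase a).powersetCard m, (viol v P a R).card := by
          rw [Finset.sum_sigma]
      _ ≤ ∑ _a ∈ P, (D * (n - 1).choose (m + 1)) :=
          Finset.sum_le_sum fun a ha => sum_viol_le v P a ha m
      _ = n * (D * (n - 1).choose (m + 1)) := by rw [Finset.sum_const, smul_eq_mul]
  by_contra hcon
  push Not at hcon
  have hlt : ∀ p ∈ G, 2 * D * (n - (m + 1)) < (viol v P p.1 p.2).card * (m + 1) := by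
    rintro ⟨a, R⟩ hp
    simp only [hG, mem_sigma, mem_filter, mem_powersetCard] at hp
    exact hcon a hp.1 R hp.2.1.1 hp.2.1.2 hp.2.2
  have hsum : G.card * (2 * D * (n - (m + 1))) < (∑ p ∈ G, (viol v P p.1 p.2).card) * (m + 1) := by
    rw [Finset.sum_mul, ← smul_eq_mul (a := G.card), ← Finset.sum_const]
    exact Finset.sum_lt_sum_of_nonempty hGne hlt
  have hid2 : n * (D * (n - 1).choose (m + 1)) * (m + 1) = D * (n - (m + 1)) * Tt := by
    have e1 : n * (n - 1).choose (m + 1) = n.choose (m + 1) * (n - (m + 1)) := by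
      have a1 : n * (n - 1).choose (m + 1) = n.choose (m + 1 + 1) * (m + 1 + 1) := by
        rw [hn', Nat.add_sub_cancel]
        exact Nat.add_one_mul_choose_eq n' (m + 1)
      rw [a1, Nat.choose_succ_right_eq]
    calc n * (D * (n - 1).choose (m + 1)) * (m + 1)
        = D * (n * (n - 1).choose (m + 1)) * (m + 1) := by ring
      _ = D * (n.choose (m + 1) * (n - (m + 1))) * (m + 1) := by rw [e1]
      _ = D * (n - (m + 1)) * (n.choose (m + 1) * (m + 1)) := by ring
      _ = D * (n - (m + 1)) * Tt := by rw [← hTt1]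
  have h1 : G.card * (2 * D * (n - (m + 1))) < D * (n - (m + 1)) * Tt := by
    calc _ < _ := hsum
      _ ≤ n * (D * (n - 1).choose (m + 1)) * (m + 1) := Nat.mul_le_mul_right _ hviol
      _ = _ := hid2
  have h2 : (G.card : ℝ) * (2 * D * (n - (m + 1) : ℕ)) < D * (n - (m + 1) : ℕ) * Tt := by
    exact_mod_cast h1
  have h3 : (0 : ℝ) ≤ D * (n - (m + 1) : ℕ) := by positivity
  nlinarith

/-- A linear functional equal to one on a linearly independent family. -/
lemma exists_functional {Z : Finset ι} (hZ : LinearIndepOn ℝ v (Z : Set ι)) :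
    ∃ g : E →ₗ[ℝ] ℝ, ∀ u ∈ Z, g (v u) = 1 := by
  classical
  let L : (Z → ℝ) →ₗ[ℝ] E := Fintype.linearCombination ℝ (fun i : Z => v i)
  have hL : LinearMap.ker L = ⊥ := by
    rw [LinearMap.ker_eq_bot]
    have : LinearIndependent ℝ (fun i : Z => v i) := hZ
    exact linearIndependent_iff_injective_fintypeLinearCombination.mp this
  obtain ⟨g, hg⟩ := LinearMap.exists_leftInverse_of_injective L hL
  let S : (Z → ℝ) →ₗ[ℝ] ℝ := ∑ i : Z, LinearMap.proj i
  refine ⟨S ∘ₗ g, fun u hu => ?_⟩
  have h1 : L (Pi.single ⟨u, hu⟩ 1) = v u := by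
    simp [L, Fintype.linearCombination_apply, Pi.single_apply]
  have h2 : g (L (Pi.single ⟨u, hu⟩ 1)) = Pi.single ⟨u, hu⟩ 1 := by
    have := LinearMap.congr_fun hg (Pi.single ⟨u, hu⟩ 1)
    simpa using this
  rw [LinearMap.comp_apply, ← h1, h2]
  simp [S, LinearMap.sum_apply, Pi.single_apply]

/-- General position for vectors: any `D` of them are linearly independent. -/
def VecGP : Prop := ∀ S ⊆ P, S.card ≤ Module.finrank ℝ E → LinearIndepOn ℝ v (S : Set ι)

lemma perturb (hGP : VecGP v P) {w : E} (hw : w ≠ 0) :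
    ∃ f : E →ₗ[ℝ] ℝ, ∀ u ∈ P, 0 ≤ ⟪w, v u⟫ → 0 < f (v u) := by
  classical
  set Z := P.filter fun u => ⟪w, v u⟫ = 0 with hZ
  have hZc : Z.card ≤ Module.finrank ℝ E := by
    by_contra hcon
    push Not at hcon
    obtain ⟨S, hSZ, hSc⟩ := Finset.exists_subset_card_eq hcon.le
    have hSP : S ⊆ P := hSZ.trans (Finset.filter_subset _ _)
    have hli : LinearIndependent ℝ (fun i : S => v i) := hGP S hSP hSc.le
    have hspan := hli.span_eq_top_of_card_eq_finrank' (by simpa using hSc)
    have : w = 0 := by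
      have hall : ∀ x ∈ Submodule.span ℝ (Set.range fun i : S => v i), ⟪w, x⟫ = 0 := by
        intro x hx
        induction hx using Submodule.span_induction with
        | mem x hx =>
          obtain ⟨i, rfl⟩ := hx
          exact (Finset.mem_filter.mp (hSZ i.2)).2
        | zero => simp
        | add x y _ _ hx hy => rw [inner_add_right, hx, hy, add_zero]
        | smul t x _ hx => rw [inner_smul_right, hx, mul_zero]
      have := hall w (by rw [hspan]; trivial)
      exact inner_self_eq_zero.mp this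
    exact hw this
  obtain ⟨g, hg⟩ := exists_functional v (hGP Z (Finset.filter_subset _ _) hZc)
  have hev : ∀ᶠ η : ℝ in nhdsWithin 0 (Set.Ioi 0), ∀ u ∈ P, 0 < ⟪w, v u⟫ →
      0 < ⟪w, v u⟫ + η * g (v u) := by
    rw [Filter.eventually_all_finset]
    intro u _
    by_cases hpos : 0 < ⟪w, v u⟫
    · have ht : Filter.Tendsto (fun η : ℝ => ⟪w, v u⟫ + η * g (v u)) (nhds 0)
          (nhds (⟪w, v u⟫ + 0 * g (v u))) :=
        (tendsto_const_nhds.add ((Filter.tendsto_id).mul_const _))
      have : ∀ᶠ η : ℝ in nhds 0, 0 < ⟪w, v u⟫ + η * g (v u) :=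
        ht.eventually (lt_mem_nhds (by simpa using hpos))
      exact (this.filter_mono nhdsWithin_le_nhds).mono fun η h _ => h
    · exact Filter.Eventually.of_forall fun η h => absurd h hpos
  obtain ⟨η, hη, hη0⟩ := (hev.and self_mem_nhdsWithin).exists
  refine ⟨(innerₛₗ ℝ w) + η • g, fun u hu h0 => ?_⟩
  rcases h0.lt_or_eq with h | h
  · have := hη u hu h
    simpa [mul_comm] using this
  · have hu1 : g (v u) = 1 := hg u (by simp [hZ, hu, h.symm])
    have hη0' : 0 < η := hη0
    simp [hu1, ← h, hη0']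

/-- Vector form of the positive-fraction theorem. -/
theorem vec_main {m : ℕ} {ε : ℝ} (hε0 : 0 ≤ ε) (hGP : VecGP v P)
    (hm : Module.finrank ℝ E ≤ m)
    (hbad : ∀ F : Finset (Finset ι), F ⊆ P.powersetCard (Module.finrank ℝ E + 1) →
      (∀ T ∈ F, IsBad v T) → (F.card : ℝ) ≤ ε * (P.card.choose (Module.finrank ℝ E + 1)))
    (hε : ε * (m.choose (Module.finrank ℝ E)) ≤ 1 / 2) :
    ∃ f : E →ₗ[ℝ] ℝ, ∃ K ⊆ P, K.card * (m + 1) ≤ 2 * Module.finrank ℝ E * (P.card - (m + 1)) ∧
      ∀ u ∈ P, u ∉ K → 0 < f (v u) := by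
  classical
  set D := Module.finrank ℝ E with hD
  by_cases hn : P.card ≤ D
  · obtain ⟨g, hg⟩ := exists_functional v (hGP P subset_rfl hn)
    exact ⟨g, ∅, by simp, by simp, fun u hu _ => by rw [hg u hu]; norm_num⟩
  · push Not at hn
    -- sample size m' = min m (n-1)
    obtain ⟨m', hm'm, hDm', hm'n, hmm⟩ : ∃ m' ≤ m, D ≤ m' ∧ m' < P.card ∧
        (m' = m ∨ P.card - (m' + 1) = 0) := by
      by_cases h : m < P.card
      · exact ⟨m, le_rfl, hm, h, Or.inl rfl⟩
      · push Not at h
        exact ⟨P.card - 1, by omega, by omega, by omega, Or.inr (by omega)⟩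
    have hε' : ε * (m'.choose D) ≤ 1 / 2 := by
      refine le_trans ?_ hε
      apply mul_le_mul_of_nonneg_left _ hε0
      exact_mod_cast Nat.choose_le_choose D hm'm
    obtain ⟨a, ha, R, hR, hRc, hneg, hcard⟩ := exists_good_pair v P hDm' hm'n hbad hε'
    obtain ⟨f, hf⟩ := perturb v P hGP (W_ne_zero v hneg)
    refine ⟨f, viol v P a R, fun u hu => ?_, ?_, ?_⟩
    · simp only [viol, mem_filter, mem_sdiff] at hu
      exact hu.1.1
    · rcases hmm with h | h
      · rw [← h]; exact hcard
      · rw [h, mul_zero] at hcard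
        have : (viol v P a R).card = 0 := by
          rcases Nat.mul_eq_zero.mp (Nat.le_zero.mp hcard) with h | h
          · exact h
          · omega
        rw [this]; simp
    · intro u hu huK
      apply hf u hu
      by_contra hlt
      push Not at hlt
      apply huK
      simp only [viol, mem_filter, mem_sdiff, mem_insert, not_or]
      refine ⟨⟨hu, ?_, ?_⟩, hlt⟩
      · rintro rfl
        exact absurd (inner_W_self v hneg) (not_lt.mpr hlt.le)
      · intro huR
        exact absurd ((W_spec v R (v a)).nonneg u huR) (not_le.mpr hlt)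

end Kirch553
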